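import Pool.Agent.H5.AC.Ur2

/-!
# Admissible enumerations of the cells of one family
-/

set_option autoImplicit false

namespace Pool.H5.AC

open Set Ordinal Pool.H62.VT Pool.H5.AA

variable {a : ℕ → ℕ} {M : Str a} {E : Set ℕ} {n : ℕ} {C : Fin n → Set (Finset ℕ)}
  {lt : Fin n → Finset ℕ → Finset ℕ → Prop} {B : Fin n → Pos → Prop} {j j' : Fin n}
  {s s' l : ℕ} {u v q q' : Fin s → ℕ} {w : Fin l → ℕ} {S S' : Finset ℕ}

/-- the family `j` is recognised by means of `u, v, w` -/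
structure Fm (M : Str a) (E : Set ℕ) (C : Fin n → Set (Finset ℕ))
    (lt : Fin n → Finset ℕ → Finset ℕ → Prop) (B : Fin n → Pos → Prop) (j : Fin n) {s l : ℕ}
    (u v : Fin s → ℕ) (w : Fin l → ℕ) : Prop where
  inf : (C j).Infinite
  inj : Function.Injective u
  mem : Finset.univ.image u ∈ C j
  cf : ∀ q q' : Fin s → ℕ, CfR M E u v w q q' ↔ ∃ S ∈ C j, ∃ S' ∈ C j, lt j S S' ∧
    MtS (mt u q) (Finset.univ.image u) S ∧ B j (mt u q) ∧
    MtS (mt u q') (Finset.univ.image u) S' ∧ B j (mt u q')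

/-- `q` is an admissible enumeration of the cell `S` -/
def Adm (C : Fin n → Set (Finset ℕ)) (B : Fin n → Pos → Prop) (j : Fin n) {s : ℕ}
    (u q : Fin s → ℕ) (S : Finset ℕ) : Prop :=
  S ∈ C j ∧ MtS (mt u q) (Finset.univ.image u) S ∧ B j (mt u q)

/-- admissible matchings are partial isomorphisms -/
theorem pi_adm (hST : ST M E C lt B) {b : Pos} (hS : S ∈ C j) (hS' : S' ∈ C j) (h : MtS b S S')
    (hb : B j b) : PI M M b := by
  have h1 := hST.free ∅ Unit (fun _ => j) (fun _ => S) (fun _ => S') (fun _ => b) finite_empty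
    inferInstance (by
      rw [union_empty]
      exact (BF_refl M univ E 0).pi) (fun q hq => absurd hq (notMem_empty q))
    (fun _ => ⟨hS, hS', h, hb⟩) (fun i i' h => absurd (Subsingleton.elim i i') h)
    (fun _ _ _ h => absurd h (hST.irr j S hS))
  exact h1.mono fun p hp => Or.inr (mem_iUnion.2 ⟨(), hp⟩)

theorem mem_im {y : ℕ} : y ∈ Finset.univ.image q ↔ ∃ d, q d = y := by
  rw [Finset.mem_image]
  constructor
  · rintro ⟨d, -, h⟩
    exact ⟨d, h⟩
  · rintro ⟨d, h⟩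
    exact ⟨d, Finset.mem_univ _, h⟩

theorem Adm.mem (h : Adm C B j u q S) (d : Fin s) : q d ∈ S :=
  (h.2.1.1 _ ⟨d, rfl⟩).2

theorem Adm.surj (h : Adm C B j u q S) {y : ℕ} (hy : y ∈ S) : ∃ d, q d = y := by
  obtain ⟨z, -, d, hd⟩ := h.2.1.2.2 y hy
  rw [Prod.mk.injEq] at hd
  exact ⟨d, hd.2.symm⟩

theorem Adm.eq (h : Adm C B j u q S) : S = Finset.univ.image q := by
  ext y
  rw [mem_im]
  exact ⟨fun hy => h.surj hy, fun ⟨d, hd⟩ => hd ▸ h.mem d⟩

theorem Adm.ran (h : Adm C B j u q S) : range q = (S : Set ℕ) := by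
  ext y
  exact ⟨fun ⟨d, hd⟩ => hd ▸ h.mem d, fun hy => h.surj hy⟩

theorem Adm.pi (hST : ST M E C lt B) (hF : Fm M E C lt B j u v w) (h : Adm C B j u q S) :
    PI M M (mt u q) := pi_adm hST hF.mem h.1 h.2.1 h.2.2

theorem Adm.inj (hST : ST M E C lt B) (hF : Fm M E C lt B j u v w) (h : Adm C B j u q S) :
    Function.Injective q := fun d d' hd =>
  hF.inj (((h.pi hST hF).2 _ ⟨d, rfl⟩ _ ⟨d', rfl⟩).2 hd)

/-- every cell has an admissible enumeration -/
theorem exists_adm (hST : ST M E C lt B) (hF : Fm M E C lt B j u v w) (hS : S ∈ C j) :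
    ∃ q, Adm C B j u q S := by
  obtain ⟨b, hb, hB⟩ := hST.hom j _ hF.mem S hS
  have hP := pi_adm hST hF.mem hS hb hB
  have h1 : ∀ d, ∃ y, (u d, y) ∈ b := fun d => by
    obtain ⟨y, -, hy⟩ := hb.2.1 (u d) (mem_im.2 ⟨d, rfl⟩)
    exact ⟨y, hy⟩
  choose q hq using h1
  have h2 : mt u q = b := by
    ext p
    constructor
    · rintro ⟨d, rfl⟩
      exact hq d
    · intro hp
      obtain ⟨d, hd⟩ := mem_im.1 (hb.1 p hp).1
      refine ⟨d, Prod.ext hd.symm ?_⟩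
      exact (hP.2 _ hp _ (hq d)).1 hd.symm
  refine ⟨q, hS, ?_, ?_⟩
  · rw [h2]
    exact hb
  · rw [h2]
    exact hB

/-- every cell is comparable with another one -/
theorem exists_other (hST : ST M E C lt B) (hF : Fm M E C lt B j u v w) (hS : S ∈ C j) :
    ∃ S' ∈ C j, lt j S S' ∨ lt j S' S := by
  obtain ⟨S', hS', hne⟩ := (hF.inf.diff (finite_singleton S)).nonempty
  exact ⟨S', hS', hST.tot j S hS S' hS' fun h => hne h.symm⟩

theorem adm_iff (hST : ST M E C lt B) (hF : Fm M E C lt B j u v w) (q : Fin s → ℕ) :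
    (∃ q', CfR M E u v w q q' ∨ CfR M E u v w q' q) ↔ ∃ S, Adm C B j u q S := by
  constructor
  · rintro ⟨q', h | h⟩
    · obtain ⟨S, hS, S', hS', -, h1, h2, -⟩ := (hF.cf q q').1 h
      exact ⟨S, hS, h1, h2⟩
    · obtain ⟨S, hS, S', hS', -, -, -, h1, h2⟩ := (hF.cf q' q).1 h
      exact ⟨S', hS', h1, h2⟩
  · rintro ⟨S, hS, h1, h2⟩
    obtain ⟨S', hS', h⟩ := exists_other hST hF hS
    obtain ⟨q', -, h3, h4⟩ := exists_adm hST hF hS'
    refine ⟨q', ?_⟩
    rcases h with h | h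
    · exact Or.inl ((hF.cf q q').2 ⟨S, hS, S', hS', h, h1, h2, h3, h4⟩)
    · exact Or.inr ((hF.cf q' q).2 ⟨S', hS', S, hS, h, h3, h4, h1, h2⟩)

theorem ord_iff (hST : ST M E C lt B) (hF : Fm M E C lt B j u v w) (p p' : ℕ) :
    (∃ q q', CfR M E u v w q q' ∧ (∃ d, q d = p) ∧ ∃ d, q' d = p') ↔
      ∃ S ∈ C j, ∃ S' ∈ C j, lt j S S' ∧ p ∈ S ∧ p' ∈ S' := by
  constructor
  · rintro ⟨q, q', h, ⟨d, rfl⟩, d', rfl⟩
    obtain ⟨S, hS, S', hS', hlt, h1, h2, h3, h4⟩ := (hF.cf q q').1 h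
    exact ⟨S, hS, S', hS', hlt, Adm.mem ⟨hS, h1, h2⟩ d, Adm.mem ⟨hS', h3, h4⟩ d'⟩
  · rintro ⟨S, hS, S', hS', hlt, hp, hp'⟩
    obtain ⟨q, hq⟩ := exists_adm hST hF hS
    obtain ⟨q', hq'⟩ := exists_adm hST hF hS'
    exact ⟨q, q', (hF.cf q q').2 ⟨S, hS, S', hS', hlt, hq.2.1, hq.2.2, hq'.2.1, hq'.2.2⟩,
      hq.surj hp, hq'.surj hp'⟩

/-- the matching between two admissible enumerations -/
theorem mts_two (hST : ST M E C lt B) (hF : Fm M E C lt B j u v w)
    (hinv : ∀ j b, B j b → B j (pinv b)) (h : Adm C B j u q S) (h' : Adm C B j u q' S') :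
    MtS (mt q q') S S' ∧ B j (mt q q') := by
  have h1 : MtS (pinv (mt u q)) S (Finset.univ.image u) :=
    ⟨fun p hp => ⟨(h.2.1.1 _ hp).2, (h.2.1.1 _ hp).1⟩,
      ⟨fun y hy => h.2.1.2.2 y hy, fun y hy => h.2.1.2.1 y hy⟩⟩
  have h2 := hST.comp j S h.1 _ hF.mem S' h'.1 _ _ h1 h'.2.1 (hinv j _ h.2.2) h'.2.2
  have h3 : pcomp (pinv (mt u q)) (mt u q') = mt q q' := by
    ext ⟨p1, p2⟩
    constructor
    · rintro ⟨y, ⟨d, hd⟩, ⟨d', hd'⟩⟩
      rw [Prod.mk.injEq] at hd hd'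
      have : d = d' := hF.inj (hd.1.symm.trans hd'.1)
      subst this
      exact ⟨d, Prod.ext hd.2 hd'.2⟩
    · rintro ⟨d, hd⟩
      rw [Prod.mk.injEq] at hd
      exact ⟨u d, ⟨d, Prod.ext rfl hd.1⟩, ⟨d, Prod.ext rfl hd.2⟩⟩
  rw [h3] at h2
  refine ⟨⟨?_, ?_, ?_⟩, h2⟩
  · rintro _ ⟨d, rfl⟩
    exact ⟨h.mem d, h'.mem d⟩
  · intro y hy
    obtain ⟨d, hd⟩ := h.surj hy
    exact ⟨q' d, h'.mem d, d, by rw [hd]⟩
  · intro y hy
    obtain ⟨d, hd⟩ := h'.surj hy
    exact ⟨q d, h.mem d, d, by rw [hd]⟩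

/-- the admissible label changes are the same for all cells -/
theorem adm_lab (hST : ST M E C lt B) (hF : Fm M E C lt B j u v w)
    (hinv : ∀ j b, B j b → B j (pinv b)) {γ : Equiv.Perm (Fin s)} {S1 : Finset ℕ}
    (h : Adm C B j u q S) (h1 : Adm C B j u (fun d => q (γ d)) S1) (h' : Adm C B j u q' S') :
    Adm C B j u (fun d => q' (γ d)) S' := by
  have hSS : S1 = S := by
    ext y
    constructor
    · intro hy
      obtain ⟨d, hd⟩ := h1.surj hy
      rw [← hd]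
      exact h.mem _
    · intro hy
      obtain ⟨d, hd⟩ := h.surj hy
      rw [← hd]
      have := h1.mem (γ⁻¹ d)
      simpa using this
  subst hSS
  obtain ⟨h2, h3⟩ := mts_two hST hF hinv h h'
  have h4 := hST.comp j _ hF.mem S1 h.1 S' h'.1 _ _ h1.2.1 h2 h1.2.2 h3
  have h5 : pcomp (mt u fun d => q (γ d)) (mt q q') = mt u fun d => q' (γ d) := by
    ext ⟨p1, p2⟩
    constructor
    · rintro ⟨y, ⟨d, hd⟩, ⟨d', hd'⟩⟩
      rw [Prod.mk.injEq] at hd hd'
      have : γ d = d' := h.inj hST hF (hd.2.symm.trans hd'.1)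
      subst this
      exact ⟨d, Prod.ext hd.1 hd'.2⟩
    · rintro ⟨d, hd⟩
      rw [Prod.mk.injEq] at hd
      exact ⟨q (γ d), ⟨d, Prod.ext hd.1 rfl⟩, ⟨γ d, Prod.ext rfl hd.2⟩⟩
  rw [h5] at h4
  refine ⟨h'.1, ⟨?_, ?_, ?_⟩, h4⟩
  · rintro _ ⟨d, rfl⟩
    exact ⟨mem_im.2 ⟨d, rfl⟩, h'.mem _⟩
  · intro y hy
    obtain ⟨d, rfl⟩ := mem_im.1 (Finset.mem_coe.1 hy)
    exact ⟨q' (γ d), h'.mem _, d, rfl⟩
  · intro y hy
    obtain ⟨d, hd⟩ := h'.surj hy
    refine ⟨u (γ⁻¹ d), mem_im.2 ⟨_, rfl⟩, γ⁻¹ d, ?_⟩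
    rw [← hd]
    simp

theorem exists_strict {L : Type} [LinearOrder L] [Infinite L] (r : ℕ) :
    ∃ T : Fin r → L, ∀ i i', i < i' → T i < T i' := by
  obtain ⟨F, hFc⟩ := Infinite.exists_subset_card_eq L r
  exact ⟨F.orderEmbOfFin hFc, fun i i' h => (F.orderEmbOfFin hFc).strictMono h⟩

/-- increasing sequences of cells -/
theorem exists_incr_cells (hST : ST M E C lt B) (hF : Fm M E C lt B j u v w) (r : ℕ) :
    ∃ T : Fin r → Finset ℕ, (∀ i, T i ∈ C j) ∧ ∀ i i', i < i' → lt j (T i) (T i') := by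
  classical
  letI : LinearOrder {S // S ∈ C j} :=
    { le := fun S T => S = T ∨ lt j S.1 T.1
      lt := fun S T => lt j S.1 T.1
      le_refl := fun S => Or.inl rfl
      le_trans := by
        rintro S T U (rfl | h1) h2
        · exact h2
        · rcases h2 with rfl | h2
          · exact Or.inr h1
          · exact Or.inr (hST.tr j _ S.2 _ T.2 _ U.2 h1 h2)
      lt_iff_le_not_ge := by
        intro S T
        constructor
        · intro h1
          refine ⟨Or.inr h1, ?_⟩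
          rintro (h2 | h2)
          · subst h2
            exact hST.irr j _ T.2 h1
          · exact hST.irr j _ T.2 (hST.tr j _ T.2 _ S.2 _ T.2 h2 h1)
        · rintro ⟨h1 | h1, h2⟩
          · exact absurd (Or.inl h1.symm) h2
          · exact h1
      le_antisymm := by
        rintro S T (h1 | h1) h2
        · exact h1
        · rcases h2 with h2 | h2
          · exact h2.symm
          · exact absurd (hST.tr j _ S.2 _ T.2 _ S.2 h1 h2) (hST.irr j _ S.2)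
      le_total := by
        intro S T
        by_cases h1 : S = T
        · exact Or.inl (Or.inl h1)
        · rcases hST.tot j _ S.2 _ T.2 (fun h2 => h1 (Subtype.ext h2)) with h2 | h2
          · exact Or.inl (Or.inr h2)
          · exact Or.inr (Or.inr h2)
      toDecidableLE := Classical.decRel _
      toDecidableEq := Classical.decEq _
      toDecidableLT := Classical.decRel _ }
  haveI : Infinite {S // S ∈ C j} := hF.inf.to_subtype
  obtain ⟨T, hT⟩ := exists_strict (L := {S // S ∈ C j}) r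
  exact ⟨fun i => (T i).1, fun i => (T i).2, hT⟩

end Pool.H5.AC
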