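import Pool.Agent.H5.AC.Ref
import Pool.Agent.H5.AB.St

/-!
# Uniform recognition of the cells of a family
-/

set_option autoImplicit false

namespace Pool.H5.AC

open Set Ordinal Pool.H62.VT Pool.H5.AB Pool.H5.AA

variable {a : ℕ → ℕ} {I : Type} {M : Str a} {E E' EE : Set ℕ} {m c r : ℕ} [LinearOrder I]
  {kd : I → ℕ} {sz : ℕ → ℕ} {x : I → ℕ → ℕ} {Rn Nm : Finset I} {k g : ℕ}

/-- `u, v` can be moved to `q, q'`, together with the reference points `w`, the points of `E` being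
fixed -/
def CfR (M : Str a) (E : Set ℕ) {s l : ℕ} (u v : Fin s → ℕ) (w : Fin l → ℕ)
    (q q' : Fin s → ℕ) : Prop :=
  ∃ z : Fin l → ℕ, PI M M (idOn E ∪ {p | (∃ d, p = (u d, q d)) ∨ (∃ d, p = (v d, q' d)) ∨
    ∃ d, p = (w d, z d)})

/-- the matching of `u` with `q` -/
def mt {s : ℕ} (u q : Fin s → ℕ) : Pos := {p | ∃ d, p = (u d, q d)}

theorem image_cell (u0 : Lk kd k) :
    Finset.univ.image (fun d : Fin (sz k) => x u0.1 d) = cell kd sz x u0.1 := by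
  ext y
  rw [Finset.mem_image, mem_cell]
  constructor
  · rintro ⟨d, -, h⟩
    exact ⟨d, by rw [u0.2]; exact d.2, h⟩
  · rintro ⟨d, hd, h⟩
    rw [u0.2] at hd
    exact ⟨⟨d, hd⟩, Finset.mem_univ _, h⟩

/-- an admissible matching of the cell `u0` -/
theorem mt_eq (hF : FF M Rn E E' m c kd sz x) {u0 : Lk kd k} {S : Finset ℕ}
    {q : Fin (sz k) → ℕ} (hm : MtS (mt (fun d : Fin (sz k) => x u0.1 d) q) (cell kd sz x u0.1) S)
    (hb : BI M kd sz x k (mt (fun d : Fin (sz k) => x u0.1 d) q)) {i : Lk kd k}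
    (hS : S = cell kd sz x i.1) : ∃ γ : Equiv.Perm (Fin (sz k)), GdL M kd sz x k γ ∧
      ∀ d, q d = x i.1 (γ d) := by
  obtain ⟨i1, i2, γ, h1, h2, h3, h4⟩ := hb
  rw [h4] at hm
  obtain ⟨e1, e2⟩ := mts_left h1 h2 hm
  have e3 : u0.1 = i1 := cell_inj hF e1 (Or.inl (u0.2.trans h1.symm))
  have e4 : i.1 = i2 := cell_inj hF (hS.symm.trans e2) (Or.inl (i.2.trans h2.symm))
  refine ⟨γ, h3, fun d => ?_⟩
  have h5 : (x u0.1 d, q d) ∈ mvL x i1 i2 γ := by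
    rw [← h4]
    exact ⟨d, rfl⟩
  obtain ⟨d', hd'⟩ := h5
  rw [Prod.mk.injEq] at hd'
  rw [← e3] at hd'
  have h6 := (hF.inj u0.1 u0.1 d d' (by rw [u0.2]; exact d.2) (by rw [u0.2]; exact d'.2)
    hd'.1 (Or.inl rfl)).2
  have h7 : d = d' := Fin.ext h6
  rw [hd'.2, e4, h7]

theorem mt_mvL {u0 i : Lk kd k} {q : Fin (sz k) → ℕ} {γ : Equiv.Perm (Fin (sz k))}
    (h : ∀ d, q d = x i.1 (γ d)) :
    mt (fun d : Fin (sz k) => x u0.1 d) q = mvL x u0.1 i.1 γ := by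
  ext p
  constructor
  · rintro ⟨d, rfl⟩
    exact ⟨d, by rw [h]⟩
  · rintro ⟨d, rfl⟩
    exact ⟨d, by rw [h]⟩

theorem cf_fam (hF : FF M Rn E E' 0 c kd sz x) (hN : NE M Rn E' c kd sz x r Nm EE) (hk : k < c)
    (hne : (CI kd sz x Nm k g).Nonempty) : (CI kd sz x Nm k g).Infinite ∧
      ∃ (l : ℕ) (u v : Fin (sz k) → ℕ) (w : Fin l → ℕ), Function.Injective u ∧
        Finset.univ.image u ∈ CI kd sz x Nm k g ∧ ∀ q q' : Fin (sz k) → ℕ,
          CfR M EE u v w q q' ↔ ∃ S ∈ CI kd sz x Nm k g, ∃ S' ∈ CI kd sz x Nm k g,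
            LI kd sz x k S S' ∧ MtS (mt u q) (Finset.univ.image u) S ∧ BI M kd sz x k (mt u q) ∧
              MtS (mt u q') (Finset.univ.image u) S' ∧ BI M kd sz x k (mt u q') := by
  classical
  obtain ⟨-, i0, hi0, hk0, hg0, rfl⟩ := hne
  have hinf := hN.gapinf i0 hi0
  rw [hk0, hg0] at hinf
  have hCI : CI kd sz x Nm k g = cell kd sz x '' {i' | i' ∉ Nm ∧ kd i' = k ∧ gap kd Nm i' = g} := by
    ext S
    constructor
    · rintro ⟨i, h1, h2, h3, rfl⟩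
      exact ⟨i, ⟨h1, h2, h3⟩, rfl⟩
    · rintro ⟨i, ⟨h1, h2, h3⟩, rfl⟩
      exact ⟨i, h1, h2, h3, rfl⟩
  refine ⟨?_, ?_⟩
  · rw [hCI]
    refine hinf.image fun i hi i' hi' h => cell_inj hF h (Or.inl (hi.2.1.trans hi'.2.1.symm))
  -- two cells
  obtain ⟨u0, v0, hu, hv, hgu, hgv, huv⟩ : ∃ u0 v0 : Lk kd k, u0.1 ∉ Nm ∧ v0.1 ∉ Nm ∧
      gap kd Nm u0.1 = g ∧ gap kd Nm v0.1 = g ∧ u0 < v0 := by
    obtain ⟨i1, h1⟩ := hinf.nonempty
    obtain ⟨i2, h2, hne⟩ := (hinf.diff (finite_singleton i1)).nonempty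
    rcases lt_or_gt_of_ne (fun h : i2 = i1 => hne h) with h | h
    · exact ⟨⟨i2, h2.2.1⟩, ⟨i1, h1.2.1⟩, h2.1, h1.1, h2.2.2, h1.2.2, h⟩
    · exact ⟨⟨i1, h1.2.1⟩, ⟨i2, h2.2.1⟩, h1.1, h2.1, h1.2.2, h2.2.2, h⟩
  obtain ⟨Y, hYN, hYu, hYv, hrec, hmov⟩ := exists_refs hF hN hk hu hv huv
  set Pt : Finset ℕ := Y.biUnion fun y => cell kd sz x y.1 with hPt
  set w : Fin Pt.card → ℕ := fun d => (Pt.equivFin.symm d : ℕ) with hw
  have hwP : ∀ d, w d ∈ Pt := fun d => (Pt.equivFin.symm d).2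
  have hPw : ∀ y ∈ Pt, ∃ d, w d = y := fun y hy => ⟨Pt.equivFin ⟨y, hy⟩, by simp [hw]⟩
  have hinj : Function.Injective (fun d : Fin (sz k) => x u0.1 d) := by
    intro d d' h
    exact Fin.ext (hF.inj u0.1 u0.1 d d' (by rw [u0.2]; exact d.2) (by rw [u0.2]; exact d'.2)
      h (Or.inl rfl)).2
  refine ⟨Pt.card, fun d => x u0.1 d, fun d => x v0.1 d, w, hinj, ?_, ?_⟩
  · rw [image_cell]
    exact ⟨u0.1, hu, u0.2, hgu, rfl⟩
  intro q q'
  rw [image_cell]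
  constructor
  · -- recognition
    rintro ⟨z, hP⟩
    set P : Pos := idOn EE ∪ {p | (∃ d : Fin (sz k), p = (x u0.1 d, q d)) ∨
      (∃ d : Fin (sz k), p = (x v0.1 d, q' d)) ∨ ∃ d, p = (w d, z d)} with hPd
    have hEP : idOn EE ⊆ P := subset_union_left
    have hE' : idOn E' ⊆ P := fun p hp => hEP ⟨hN.nd.sub hp.1, hp.2⟩
    have hex : ∀ y : Lk kd k, ∃ (v : Lk kd k) (γ : Equiv.Perm (Fin (sz k))),
        y ∈ insert u0 (insert v0 Y) → mvL x y.1 v.1 γ ⊆ P := by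
      intro y
      by_cases hy : y ∈ insert u0 (insert v0 Y)
      · obtain ⟨v, γ, h⟩ := cell_reco0 hF hP hE' y (by
          intro d hd
          rw [Finset.mem_insert, Finset.mem_insert] at hy
          rcases hy with rfl | rfl | hy
          · exact ⟨q ⟨d, hd⟩, Or.inr (Or.inl ⟨⟨d, hd⟩, rfl⟩)⟩
          · exact ⟨q' ⟨d, hd⟩, Or.inr (Or.inr (Or.inl ⟨⟨d, hd⟩, rfl⟩))⟩
          · obtain ⟨e, he⟩ := hPw (x y.1 d) (Finset.mem_biUnion.2 ⟨y, hy,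
              mem_cell.2 ⟨d, by rw [y.2]; exact hd, rfl⟩⟩)
            exact ⟨z e, Or.inr (Or.inr (Or.inr ⟨e, by rw [he]⟩))⟩)
        exact ⟨v, γ, fun _ => h⟩
      · exact ⟨y, 1, fun h => absurd h hy⟩
    choose φ γ hm using hex
    obtain ⟨h1, ⟨h2, h3, h4⟩, h5, h6, h7⟩ := hrec P φ γ hP hEP hm
    have hq : ∀ d, q d = x (φ u0).1 (γ u0 d) := by
      intro d
      have e1 : (x u0.1 d, q d) ∈ P := Or.inr (Or.inl ⟨d, rfl⟩)
      have e2 := hm u0 (Finset.mem_insert_self _ _) ⟨d, rfl⟩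
      exact (hP.2 _ e1 _ e2).1 rfl
    have hq' : ∀ d, q' d = x (φ v0).1 (γ v0 d) := by
      intro d
      have e1 : (x v0.1 d, q' d) ∈ P := Or.inr (Or.inr (Or.inl ⟨d, rfl⟩))
      have e2 := hm v0 (Finset.mem_insert_of_mem (Finset.mem_insert_self _ _)) ⟨d, rfl⟩
      exact (hP.2 _ e1 _ e2).1 rfl
    refine ⟨_, ⟨(φ u0).1, h2, (φ u0).2, h3.trans hgu, rfl⟩, _, ⟨(φ v0).1, h5, (φ v0).2,
      h6.trans hgv, rfl⟩, ⟨(φ u0).1, (φ v0).1, (φ u0).2, (φ v0).2, rfl, rfl, h1⟩, ?_, ?_, ?_, ?_⟩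
    · rw [mt_mvL hq]
      exact mts_mvL u0.2 (φ u0).2 _
    · rw [mt_mvL hq]
      exact ⟨_, _, _, u0.2, (φ u0).2, h4, rfl⟩
    · rw [mt_mvL hq']
      exact mts_mvL u0.2 (φ v0).2 _
    · rw [mt_mvL hq']
      exact ⟨_, _, _, u0.2, (φ v0).2, h7, rfl⟩
  · -- moving
    rintro ⟨S, hS, S', hS', hlt, hm, hb, hm', hb'⟩
    obtain ⟨i, hi, hik, hig, rfl⟩ := hS
    obtain ⟨i', hi', hik', hig', rfl⟩ := hS'
    have hii : (⟨i, hik⟩ : Lk kd k) < ⟨i', hik'⟩ := by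
      obtain ⟨j, j', hj, hj', e1, e2, h⟩ := hlt
      rw [← cell_inj hF e1 (Or.inl (hik.trans hj.symm)),
        ← cell_inj hF e2 (Or.inl (hik'.trans hj'.symm))] at h
      exact h
    obtain ⟨γ, hγ, hq⟩ := mt_eq hF hm hb (i := ⟨i, hik⟩) rfl
    obtain ⟨γ', hγ', hq'⟩ := mt_eq hF hm' hb' (i := ⟨i', hik'⟩) rfl
    obtain ⟨φ, hφu, hφv, hφm, hφ⟩ := hmov ⟨i, hik⟩ ⟨i', hik'⟩ hii hi hi' (hig.trans hgu.symm)
      (hig'.trans hgv.symm)
    have hlab : ∃ δ : Lk kd k → Equiv.Perm (Fin (sz k)), (∀ y, GdL M kd sz x k (δ y)) ∧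
        δ u0 = γ ∧ δ v0 = γ' := by
      refine ⟨fun y => if y = u0 then γ else if y = v0 then γ' else 1, ?_, ?_, ?_⟩
      · intro y
        beta_reduce
        split_ifs
        · exact hγ
        · exact hγ'
        · exact gl_one
      · beta_reduce
        rw [if_pos rfl]
      · beta_reduce
        rw [if_neg huv.ne', if_pos rfl]
    obtain ⟨δ, hδ, hδu, hδv⟩ := hlab
    have hST := st_of_nd hF hN.nd
    have hYN' : ∀ y ∈ insert u0 (insert v0 Y), y.1 ∉ Nm := by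
      intro y hy
      rw [Finset.mem_insert, Finset.mem_insert] at hy
      rcases hy with rfl | rfl | hy
      · exact hu
      · exact hv
      · exact hYN y hy
    have hj : ∀ y : Lk kd k, ∃ j : Fin (c * (Nm.card + 1)), kk j = k ∧ gg j = gap kd Nm y.1 :=
      fun y => kg_surj hk (gap_le _)
    choose j hj1 hj2 using hj
    have hfree := hST.free ∅ {y : Lk kd k // y ∈ insert u0 (insert v0 Y)} (fun y => j y.1)
      (fun y => cell kd sz x y.1.1) (fun y => cell kd sz x (φ y.1).1)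
      (fun y => mvL x y.1.1 (φ y.1).1 (δ y.1)) finite_empty inferInstance (by
        rw [union_empty]
        exact pi_id M EE) (fun q hq => absurd hq (notMem_empty q)) (by
        rintro ⟨y, hy⟩
        refine ⟨⟨y.1, hYN' y hy, y.2.trans (hj1 y).symm, (hj2 y).symm, rfl⟩,
          ⟨(φ y).1, (hφ y hy).1, (φ y).2.trans (hj1 y).symm, (hφ y hy).2.trans (hj2 y).symm, rfl⟩,
          mts_mvL y.2 (φ y).2 _, ?_⟩
        show BI M kd sz x (kk (j y)) _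
        rw [hj1]
        exact ⟨_, _, _, y.2, (φ y).2, hδ y, rfl⟩) (by
        rintro ⟨y, hy⟩ ⟨y', hy'⟩ hne h
        apply hne
        have h1 := cell_inj hF h (Or.inl (y.2.trans y'.2.symm))
        exact Subtype.ext (Subtype.ext h1)) (by
        rintro ⟨y, hy⟩ ⟨y', hy'⟩ - ⟨i1, i2, h1, h2, h3, h4, h5⟩
        have e1 := cell_inj hF h3 (Or.inl (by rw [h1]; exact y.2.trans (hj1 y).symm))
        have e2 := cell_inj hF h4 (Or.inl (by rw [h2]; exact y'.2.trans (hj1 y).symm))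
        simp only at e1 e2
        rw [← e1, ← e2] at h5
        have h6 := hφm hy hy' (show y < y' from h5)
        exact ⟨(φ y).1, (φ y').1, (φ y).2.trans (hj1 y).symm, (φ y').2.trans (hj1 y).symm, rfl, rfl,
          h6⟩)
    have hz : ∀ d, ∃ z, (w d, z) ∈ ⋃ y : {y : Lk kd k // y ∈ insert u0 (insert v0 Y)},
        mvL x y.1.1 (φ y.1).1 (δ y.1) := by
      intro d
      obtain ⟨y, hy, hyd⟩ := Finset.mem_biUnion.1 (hwP d)
      obtain ⟨e, he, h⟩ := mem_cell.1 hyd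
      rw [y.2] at he
      refine ⟨x (φ y).1 (δ y ⟨e, he⟩), mem_iUnion.2 ⟨⟨y, ?_⟩, ⟨e, he⟩, ?_⟩⟩
      · exact Finset.mem_insert_of_mem (Finset.mem_insert_of_mem hy)
      · rw [← h]
    choose z hz using hz
    refine ⟨z, hfree.mono ?_⟩
    rintro p (hp | ⟨d, rfl⟩ | ⟨d, rfl⟩ | ⟨d, rfl⟩)
    · exact Or.inl (Or.inl hp)
    · refine Or.inr (mem_iUnion.2 ⟨⟨u0, Finset.mem_insert_self _ _⟩, d, ?_⟩)
      show (x u0.1 d, q d) = (x u0.1 d, x (φ u0).1 (δ u0 d))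
      rw [hφu, hδu, hq]
    · refine Or.inr (mem_iUnion.2 ⟨⟨v0, Finset.mem_insert_of_mem (Finset.mem_insert_self _ _)⟩,
        d, ?_⟩)
      show (x v0.1 d, q' d) = (x v0.1 d, x (φ v0).1 (δ v0 d))
      rw [hφv, hδv, hq']
    · exact Or.inr (hz d)

end Pool.H5.AC
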