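import Mathlib

/-!
# Points near the ends of a linear order, with a uniform alternative
-/

set_option autoImplicit false

namespace Pool.H5.AC

open Set

variable {L : Type} [LinearOrder L]

theorem up_points2 [Infinite L] (N : ℕ) : ∃ T : Finset L, (∀ t ∈ T, ∀ y, t < y → y ∈ T) ∧
    (N ≤ T.card ∨ ∀ (n : ℕ) (X : Finset L), ∃ W : Finset L, W.card = n ∧ (∀ w ∈ W, w ∉ T) ∧
      ∀ w ∈ W, ∀ y ∈ X, y ∉ T → y < w) := by
  classical
  have key : ∀ N : ℕ, ∃ T : Finset L, (∀ t ∈ T, ∀ y, t < y → y ∈ T) ∧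
      (N ≤ T.card ∨ ∀ y, y ∉ T → ∃ y', y' ∉ T ∧ y < y') := by
    intro N
    induction N with
    | zero => exact ⟨∅, by simp, Or.inl (Nat.zero_le _)⟩
    | succ N ih =>
      obtain ⟨T, hT, h | h⟩ := ih
      · by_cases hc : ∀ y, y ∉ T → ∃ y', y' ∉ T ∧ y < y'
        · exact ⟨T, hT, Or.inr hc⟩
        · push Not at hc
          obtain ⟨y, hy, hy'⟩ := hc
          refine ⟨insert y T, ?_, Or.inl ?_⟩
          · intro t ht z htz
            rw [Finset.mem_insert] at ht ⊢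
            rcases ht with rfl | ht
            · right
              by_contra hz
              exact absurd htz (not_lt.2 (hy' z hz))
            · exact Or.inr (hT t ht z htz)
          · rw [Finset.card_insert_of_notMem hy]
            omega
      · exact ⟨T, hT, Or.inr h⟩
  obtain ⟨T, hT, h⟩ := key N
  refine ⟨T, hT, ?_⟩
  rcases h with h | h
  · exact Or.inl h
  · right
    intro n X
    have step : ∀ S : Finset L, (∀ y ∈ S, y ∉ T) → ∃ w, w ∉ T ∧ ∀ y ∈ S, y < w := by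
      intro S hS
      by_cases hne : S.Nonempty
      · obtain ⟨w, hw, hlt⟩ := h (S.max' hne) (hS _ (S.max'_mem hne))
        exact ⟨w, hw, fun y hy => lt_of_le_of_lt (S.le_max' y hy) hlt⟩
      · obtain ⟨w, hw⟩ := Infinite.exists_notMem_finset T
        refine ⟨w, hw, fun y hy => ?_⟩
        exact absurd ⟨y, hy⟩ hne
    induction n with
    | zero => exact ⟨∅, rfl, by simp, by simp⟩
    | succ n ih =>
      obtain ⟨W, h1, h2, h3⟩ := ih
      obtain ⟨w, hw, hlt⟩ := step ((X.filter fun y => y ∉ T) ∪ W) (by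
        intro y hy
        rw [Finset.mem_union, Finset.mem_filter] at hy
        rcases hy with hy | hy
        · exact hy.2
        · exact h2 y hy)
      have hwW : w ∉ W := fun h4 => lt_irrefl w (hlt w (Finset.mem_union_right _ h4))
      refine ⟨insert w W, by rw [Finset.card_insert_of_notMem hwW, h1], ?_, ?_⟩
      · intro v hv
        rcases Finset.mem_insert.1 hv with rfl | hv
        · exact hw
        · exact h2 v hv
      · intro v hv y hy hyT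
        rcases Finset.mem_insert.1 hv with rfl | hv
        · exact hlt y (Finset.mem_union_left _ (Finset.mem_filter.2 ⟨hy, hyT⟩))
        · exact h3 v hv y hy hyT

/-- the mirror image -/
theorem dn_points2 [Infinite L] (N : ℕ) : ∃ T : Finset L, (∀ t ∈ T, ∀ y, y < t → y ∈ T) ∧
    (N ≤ T.card ∨ ∀ (n : ℕ) (X : Finset L), ∃ W : Finset L, W.card = n ∧ (∀ w ∈ W, w ∉ T) ∧
      ∀ w ∈ W, ∀ y ∈ X, y ∉ T → w < y) :=
  have : Infinite Lᵒᵈ := inferInstanceAs (Infinite L)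
  up_points2 (L := Lᵒᵈ) N

/-- increasing bijection of two finite sets -/
theorem exists_incr {W W' : Finset L} (h : W.card = W'.card) : ∃ e : L → L,
    StrictMonoOn e W ∧ ∀ w ∈ W, e w ∈ W' := by
  classical
  let i1 := W.orderIsoOfFin rfl
  let i2 := W'.orderIsoOfFin h.symm
  let f := i1.symm.trans i2
  refine ⟨fun w => if h : w ∈ W then (f ⟨w, h⟩ : L) else w, ?_, ?_⟩
  · intro w hw w' hw' hlt
    beta_reduce
    rw [dif_pos (Finset.mem_coe.1 hw), dif_pos (Finset.mem_coe.1 hw')]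
    exact f.strictMono (show (⟨w, hw⟩ : W) < ⟨w', hw'⟩ from hlt)
  · intro w hw
    beta_reduce
    rw [dif_pos hw]
    exact (f ⟨w, hw⟩).2

/-- References far above, and how they are moved. -/
theorem up_ref {N : ℕ} {T : Finset L} (h : N ≤ T.card ∨ ∀ (n : ℕ) (X : Finset L),
    ∃ W : Finset L, W.card = n ∧ (∀ w ∈ W, w ∉ T) ∧ ∀ w ∈ W, ∀ y ∈ X, y ∉ T → y < w)
    (hT : ∀ t ∈ T, ∀ y, t < y → y ∈ T) {Nm : Finset L} (hTN : T ⊆ Nm) (X : Finset L) :
    ∃ W W' : Finset L, N ≤ W.card ∧ W' ⊆ W ∧ (∀ w ∈ W, w ∉ W' → w ∈ Nm) ∧ (∀ w ∈ W', w ∉ T) ∧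
      (∀ w ∈ W, ∀ y ∈ X, y ∉ T → y < w) ∧ ∀ X1 : Finset L, ∃ e : L → L,
        StrictMonoOn e W' ∧ ∀ w ∈ W', e w ∉ T ∧ ∀ y ∈ X1, y ∉ T → y < e w := by
  rcases h with h | h
  · refine ⟨T, ∅, h, Finset.empty_subset _, fun w hw _ => hTN hw, by simp, ?_, fun X1 => ?_⟩
    · intro w hw y _ hyT
      by_contra hc
      rcases (not_lt.1 hc).lt_or_eq with h1 | h1
      · exact hyT (hT w hw y h1)
      · exact hyT (h1 ▸ hw)
    · refine ⟨id, ?_, by simp⟩
      intro w hw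
      simp at hw
  · obtain ⟨W, h1, h2, h3⟩ := h N X
    refine ⟨W, W, h1.ge, subset_refl _, fun w hw hw' => absurd hw hw', h2, h3, fun X1 => ?_⟩
    obtain ⟨W1, h4, h5, h6⟩ := h N X1
    obtain ⟨e, he1, he2⟩ := exists_incr (h1.trans h4.symm)
    exact ⟨e, he1, fun w hw => ⟨h5 _ (he2 w hw), h6 _ (he2 w hw)⟩⟩

/-- References far below, and how they are moved. -/
theorem dn_ref {N : ℕ} {T : Finset L} (h : N ≤ T.card ∨ ∀ (n : ℕ) (X : Finset L),
    ∃ W : Finset L, W.card = n ∧ (∀ w ∈ W, w ∉ T) ∧ ∀ w ∈ W, ∀ y ∈ X, y ∉ T → w < y)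
    (hT : ∀ t ∈ T, ∀ y, y < t → y ∈ T) {Nm : Finset L} (hTN : T ⊆ Nm) (X : Finset L) :
    ∃ W W' : Finset L, N ≤ W.card ∧ W' ⊆ W ∧ (∀ w ∈ W, w ∉ W' → w ∈ Nm) ∧ (∀ w ∈ W', w ∉ T) ∧
      (∀ w ∈ W, ∀ y ∈ X, y ∉ T → w < y) ∧ ∀ X1 : Finset L, ∃ e : L → L,
        StrictMonoOn e W' ∧ ∀ w ∈ W', e w ∉ T ∧ ∀ y ∈ X1, y ∉ T → e w < y := by
  obtain ⟨W, W', h1, h2, h3, h4, h5, h6⟩ := up_ref (L := Lᵒᵈ) h hT hTN X
  refine ⟨W, W', h1, h2, h3, h4, h5, fun X1 => ?_⟩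
  obtain ⟨e, he1, he2⟩ := h6 X1
  exact ⟨e, fun w hw w' hw' hlt => he1 hw' hw hlt, he2⟩

end Pool.H5.AC
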