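import Pool.Agent.H5.AB.StD
import Pool.Agent.H5.AC.Seg2

/-!
# The parameters for the recognition, with references which can be moved
-/

set_option autoImplicit false

namespace Pool.H5.AC

open Set Ordinal Pool.H62.VT Pool.H5.AB

variable {a : ℕ → ℕ} {I : Type} {M : Str a} {E E' : Set ℕ} {m c r : ℕ} [LinearOrder I]
  {kd : I → ℕ} {sz : ℕ → ℕ} {x : I → ℕ → ℕ} {Rn : Finset I} {k a0 b0 m0 : ℕ}

/-- the number of reference cells -/
noncomputable def nN (sz : ℕ → ℕ) (k r a0 b0 : ℕ) : ℕ :=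
  fN a0 b0 (lN a0 b0 r (Nat.card (Equiv.Perm (Fin (sz k)))))

/-- parameters for the recognition of the cells of kind `k`, with alternatives for the ends -/
structure KQ (M : Str a) (kd : I → ℕ) (sz : ℕ → ℕ) (x : I → ℕ → ℕ) (k r a0 b0 m0 : ℕ)
    (F : Set ℕ) (T T' Z : Finset (Lk kd k)) : Prop where
  kp : KP M kd sz x k r a0 b0 m0 F T T' Z
  up : nN sz k r a0 b0 ≤ T.card ∨ ∀ (n : ℕ) (X : Finset (Lk kd k)), ∃ W : Finset (Lk kd k),
    W.card = n ∧ (∀ w ∈ W, w ∉ T) ∧ ∀ w ∈ W, ∀ y ∈ X, y ∉ T → y < w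
  dn : nN sz k r a0 b0 ≤ T'.card ∨ ∀ (n : ℕ) (X : Finset (Lk kd k)), ∃ W : Finset (Lk kd k),
    W.card = n ∧ (∀ w ∈ W, w ∉ T') ∧ ∀ w ∈ W, ∀ y ∈ X, y ∉ T' → w < y

theorem exists_kq (har : ∀ n, a n ≤ r) (hr : 2 ≤ r) (hF : FF M Rn E E' m c kd sz x) (hk : k < c)
    (hsw : ∃ a0 b0, ¬ GQ (Qi (QL M (Rs kd sz x k) kd sz x k)) (a0 + b0 + 2) (sw a0))
    (hrot : ∃ m0, ¬ GQ (Qi (QL M (Rs kd sz x k) kd sz x k)) m0 (rl m0)) :
    ∃ (a0 b0 m0 : ℕ) (F : Set ℕ) (T T' Z : Finset (Lk kd k)), KQ M kd sz x k r a0 b0 m0 F T T' Z := by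
  classical
  have hinf : Infinite (Lk kd k) := (hF.inf k hk).to_subtype
  obtain ⟨a0, b0, hsw⟩ := hsw
  obtain ⟨m0, hrot⟩ := hrot
  obtain ⟨F, hFf, hFs, hFw⟩ := exists_wit (k := k) hF (a0 + b0 + 2 + m0 + (r + r + 1))
  have hls := ls_kind hF k (subset_refl (Rs kd sz x k))
  have hlsF := ls_kind hF k hFs
  obtain ⟨T, hT, hT2⟩ := up_points2 (L := Lk kd k) (nN sz k r a0 b0)
  obtain ⟨T', hT', hT2'⟩ := dn_points2 (L := Lk kd k) (nN sz k r a0 b0)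
  have hZ : ((T ∪ T' : Finset (Lk kd k)) : Set (Lk kd k))ᶜ.Infinite :=
    (T ∪ T').finite_toSet.infinite_compl
  obtain ⟨Z, hZ1, hZ2⟩ := hZ.exists_subset_card_eq (fA a0 b0 m0 + (2 * r + 2))
  refine ⟨a0, b0, m0, F, T, T', Z, ⟨hFf, hFs, ?_, ?_, ?_, hT, hT', ?_, ?_, ?_, by omega, by omega⟩,
    hT2, hT2'⟩
  · intro h
    have hσ : ∀ i < a0 + b0 + 2, sw a0 i < a0 + b0 + 2 := by
      intro i hi
      unfold sw
      split_ifs <;> omega
    obtain ⟨lam, hl⟩ := (gq_qi hlsF hσ).1 h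
    exact hsw ((gq_qi hls hσ).2 ⟨lam, hFw _ (by omega) _ hσ lam hl⟩)
  · intro h
    have hσ : ∀ i < m0, rl m0 i < m0 := by
      intro i hi
      unfold rl
      split_ifs <;> omega
    obtain ⟨lam, hl⟩ := (gq_qi hlsF hσ).1 h
    exact hrot ((gq_qi hls hσ).2 ⟨lam, hFw _ (by omega) _ hσ lam hl⟩)
  · intro g hg
    exact lab_all har hr hF g (hFw _ (by omega) _ (fun i hi => hi) _ hg)
  · intro X
    obtain ⟨W, -, h1, -, -, -, h5, -⟩ := up_ref (X := X) hT2 hT (subset_refl T)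
    exact ⟨W, h1, h5⟩
  · intro X
    obtain ⟨W, -, h1, -, -, -, h5, -⟩ := dn_ref (X := X) hT2' hT' (subset_refl T')
    exact ⟨W, h1, h5⟩
  · intro z hz
    have h1 := hZ1 hz
    rw [mem_compl_iff, Finset.mem_coe, Finset.mem_union, not_or] at h1
    exact h1

/-- finitely many named cells and points, with references for all kinds, all gaps are infinite -/
structure NE (M : Str a) (Rn : Finset I) (E' : Set ℕ) (c : ℕ) (kd : I → ℕ) (sz : ℕ → ℕ)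
    (x : I → ℕ → ℕ) (r : ℕ) (Nm : Finset I) (EE : Set ℕ) : Prop where
  nd : ND M Rn E' c kd sz x Nm EE
  ref : ∀ k < c, ∃ (a0 b0 m0 : ℕ) (F : Set ℕ) (T T' Z : Finset (Lk kd k)),
    KQ M kd sz x k r a0 b0 m0 F T T' Z ∧ F ⊆ EE ∧ (∀ t ∈ T, t.1 ∈ Nm) ∧ (∀ t ∈ T', t.1 ∈ Nm) ∧
      ∀ t ∈ Z, t.1 ∈ Nm
  gapinf : ∀ i, i ∉ Nm → {i' | i' ∉ Nm ∧ kd i' = kd i ∧ gap kd Nm i' = gap kd Nm i}.Infinite

/-- recognition over sufficiently many named cells -/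
theorem nd_of_kp (hF : FF M Rn E E' m c kd sz x) {Nm : Finset I} {EE : Set ℕ} (hfin : EE.Finite)
    (hren : Rn ⊆ Nm) (hsub : E' ⊆ EE) (hnamed : ∀ n ∈ Nm, ∀ y ∈ cell kd sz x n, y ∈ EE)
    (hmeet : ∀ i, ∀ y ∈ cell kd sz x i, y ∈ EE → i ∈ Nm)
    (href : ∀ k < c, ∃ (a0 b0 m0 : ℕ) (F : Set ℕ) (T T' Z : Finset (Lk kd k)),
      KQ M kd sz x k r a0 b0 m0 F T T' Z ∧ F ⊆ EE ∧ (∀ t ∈ T, t.1 ∈ Nm) ∧ (∀ t ∈ T', t.1 ∈ Nm) ∧
        ∀ t ∈ Z, t.1 ∈ Nm) : ND M Rn E' c kd sz x Nm EE := by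
  classical
  refine ⟨hfin, hren, hsub, hnamed, hmeet, ?_⟩
  intro k hk P hB hE U φ γ hU hUN
  obtain ⟨a0, b0, m0, F, T, T', Z, hK, hFE, hT, hT', hZ⟩ := href k hk
  have hE' : idOn E' ⊆ P := fun q hq => hE ⟨hsub hq.1, hq.2⟩
  have hFP : idOn F ⊆ P := fun q hq => hE ⟨hFE hq.1, hq.2⟩
  have hNn : ∀ n : Lk kd k, n.1 ∈ Nm → mvL x n.1 n.1 (1 : Equiv.Perm (Fin (sz k))) ⊆ P := by
    rintro n hn _ ⟨d, rfl⟩
    refine hE ⟨hnamed _ hn _ ?_, rfl⟩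
    refine mem_cell.2 ⟨d, ?_, rfl⟩
    rw [n.2]
    exact d.2
  have h2 := recog hF hk hK.kp hB hE' hFP (Nm.subtype (fun i => kd i = k))
    (fun t ht => Finset.mem_subtype.2 (hT t ht))
    (fun t ht => Finset.mem_subtype.2 (hT' t ht))
    (fun t ht => Finset.mem_subtype.2 (hZ t ht))
    (fun n hn => hNn n (Finset.mem_subtype.1 hn)) U φ γ hU
    (fun u hu h => hUN u hu (Finset.mem_subtype.1 h))
  obtain ⟨e1, e2, e3, e4⟩ := h2
  refine ⟨e1, ?_, fun u hu h => e3 u hu (Finset.mem_subtype.2 h), e4⟩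
  intro u hu n hn hkn
  exact e2 u hu ⟨n, hkn⟩ (Finset.mem_subtype.2 hn)

/-- naming the cells in the finite gaps -/
theorem fin_gaps (hk : ∀ i, kd i < c) (Nm : Finset I) : ∃ Nm' : Finset I, Nm ⊆ Nm' ∧
    ∀ i, i ∉ Nm' → {i' | i' ∉ Nm' ∧ kd i' = kd i ∧ gap kd Nm' i' = gap kd Nm' i}.Infinite := by
  classical
  have hfin : {i : I | {i' | i' ∉ Nm ∧ kd i' = kd i ∧ gap kd Nm i' = gap kd Nm i}.Finite ∧
      i ∉ Nm}.Finite := by
    refine Set.Finite.subset (s := ⋃ q ∈ (Finset.range c ×ˢ Finset.range (Nm.card + 1)),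
      {i : I | {i' | i' ∉ Nm ∧ kd i' = q.1 ∧ gap kd Nm i' = q.2}.Finite ∧ i ∉ Nm ∧ kd i = q.1 ∧
        gap kd Nm i = q.2}) ?_ ?_
    · refine (Finset.finite_toSet _).biUnion fun q _ => ?_
      by_cases h : {i' | i' ∉ Nm ∧ kd i' = q.1 ∧ gap kd Nm i' = q.2}.Finite
      · exact h.subset fun i hi => hi.2
      · refine Set.finite_empty.subset fun i hi => absurd hi.1 h
    · rintro i ⟨h1, h2⟩
      refine mem_iUnion₂.2 ⟨(kd i, gap kd Nm i), ?_, h1, h2, rfl, rfl⟩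
      rw [Finset.mem_product, Finset.mem_range, Finset.mem_range]
      exact ⟨hk i, gap_le i⟩
  refine ⟨Nm ∪ hfin.toFinset, Finset.subset_union_left, fun i hi => ?_⟩
  have mN : ∀ n, n ∈ Nm ∪ hfin.toFinset ↔ n ∈ Nm ∨
      ({i' | i' ∉ Nm ∧ kd i' = kd n ∧ gap kd Nm i' = gap kd Nm n}.Finite ∧ n ∉ Nm) := by
    intro n
    rw [Finset.mem_union, Set.Finite.mem_toFinset]
    rfl
  rw [mN, not_or, not_and_not_right] at hi
  have h1 : ¬ {i' | i' ∉ Nm ∧ kd i' = kd i ∧ gap kd Nm i' = gap kd Nm i}.Finite := fun h =>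
    hi.1 (hi.2 h)
  refine Set.Infinite.mono ?_ h1
  rintro i' ⟨h2, h3, h4⟩
  refine ⟨?_, h3, ?_⟩
  · rw [mN, not_or, not_and_not_right]
    refine ⟨h2, fun h5 => absurd ?_ h1⟩
    rw [h3, h4] at h5
    exact h5
  · unfold gap
    congr 1
    ext n
    rw [Finset.mem_filter, Finset.mem_filter, h3]
    refine and_congr_right fun hn => and_congr_right fun hkn => ?_
    rcases (mN n).1 hn with h5 | ⟨h5, h6⟩
    · have h7 := gap_side (Nm := Nm) h3 h4 h5 (hkn.trans h3.symm) h2 hi.1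
      have n1 : i' ≠ n := fun h => h2 (h ▸ h5)
      have n2 : i ≠ n := fun h => hi.1 (h ▸ h5)
      constructor
      · intro h8
        rcases lt_or_gt_of_ne n2 with h9 | h9
        · exact absurd (h7.2 h9) h8.not_gt
        · exact h9
      · intro h8
        rcases lt_or_gt_of_ne n1 with h9 | h9
        · exact absurd (h7.1 h9) h8.not_gt
        · exact h9
    · have h8 : gap kd Nm n ≠ gap kd Nm i := by
        intro h9
        rw [hkn, h9] at h5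
        exact h1 h5
      constructor
      · intro h9
        by_contra h10
        have e1 := gap_mono (Nm := Nm) (hkn.trans h3.symm) h9.le
        have e2 := gap_mono (Nm := Nm) hkn.symm (not_lt.1 h10)
        exact h8 (le_antisymm (h4 ▸ e1) e2)
      · intro h9
        by_contra h10
        have e1 := gap_mono (Nm := Nm) hkn h9.le
        have e2 := gap_mono (Nm := Nm) (h3.trans hkn.symm) (not_lt.1 h10)
        exact h8 (le_antisymm e1 (h4 ▸ e2))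

theorem exists_ne (har : ∀ n, a n ≤ r) (hr : 2 ≤ r) (hF : FF M Rn E E' m c kd sz x)
    (hsw : ∀ k < c, ∃ a0 b0, ¬ GQ (Qi (QL M (Rs kd sz x k) kd sz x k)) (a0 + b0 + 2) (sw a0))
    (hrot : ∀ k < c, ∃ m0, ¬ GQ (Qi (QL M (Rs kd sz x k) kd sz x k)) m0 (rl m0)) :
    ∃ Nm EE, NE M Rn E' c kd sz x r Nm EE := by
  classical
  have h1 := fun k : Fin c => exists_kq har hr hF k.2 (hsw k k.2) (hrot k k.2)
  choose a0 b0 m0 F T T' Z hK using h1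
  -- the points to be named
  set E1 : Set ℕ := E' ∪ ⋃ k : Fin c, F k with hE1
  have hE1f : E1.Finite := hF.fin.union (finite_iUnion fun k => (hK k).kp.fin)
  -- the cells meeting them
  have hN1 : {i : I | i ∉ Rn ∧ ∃ y ∈ cell kd sz x i, y ∈ E1}.Finite := by
    have h2 : ∀ i : {i : I | i ∉ Rn ∧ ∃ y ∈ cell kd sz x i, y ∈ E1},
        ∃ y, y ∈ cell kd sz x i.1 ∧ y ∈ E1 := fun i => i.2.2
    choose g hg1 hg2 using h2
    have hfin : Finite E1 := hE1f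
    refine Set.finite_coe_iff.1 ?_
    exact Finite.of_injective (fun i => (⟨g i, hg2 i⟩ : E1)) fun i i' h => by
      have h3 : g i = g i' := congrArg Subtype.val h
      exact Subtype.ext (cell_eq hF (hg1 i) (h3 ▸ hg1 i') (Or.inr (Or.inl i.2.1)))
  obtain ⟨Nm, hNm0, hgap⟩ := fin_gaps hF.kdc ((Rn ∪ hN1.toFinset) ∪
    Finset.univ.biUnion fun k : Fin c => (T k ∪ T' k ∪ Z k).image Subtype.val)
  have mNm : ∀ k : Fin c, ∀ t : Lk kd k, t ∈ T k ∪ T' k ∪ Z k → t.1 ∈ Nm := by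
    intro k t ht
    apply hNm0
    rw [Finset.mem_union]
    exact Or.inr (Finset.mem_biUnion.2 ⟨k, Finset.mem_univ _, Finset.mem_image_of_mem _ ht⟩)
  have hRn : Rn ⊆ Nm :=
    (Finset.subset_union_left.trans Finset.subset_union_left).trans hNm0
  have href : ∀ k < c, ∃ (a0 b0 m0 : ℕ) (F : Set ℕ) (T T' Z : Finset (Lk kd k)),
      KQ M kd sz x k r a0 b0 m0 F T T' Z ∧ F ⊆ E1 ∪ ⋃ n ∈ Nm, (cell kd sz x n : Set ℕ) ∧
        (∀ t ∈ T, t.1 ∈ Nm) ∧ (∀ t ∈ T', t.1 ∈ Nm) ∧ ∀ t ∈ Z, t.1 ∈ Nm := by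
    intro k hk
    refine ⟨a0 ⟨k, hk⟩, b0 ⟨k, hk⟩, m0 ⟨k, hk⟩, F ⟨k, hk⟩, T ⟨k, hk⟩, T' ⟨k, hk⟩, Z ⟨k, hk⟩,
      hK ⟨k, hk⟩, fun y hy => Or.inl (Or.inr (mem_iUnion.2 ⟨⟨k, hk⟩, hy⟩)), ?_, ?_, ?_⟩
    · intro t ht
      exact mNm ⟨k, hk⟩ t (by rw [Finset.mem_union, Finset.mem_union]; exact Or.inl (Or.inl ht))
    · intro t ht
      exact mNm ⟨k, hk⟩ t (by rw [Finset.mem_union, Finset.mem_union]; exact Or.inl (Or.inr ht))
    · intro t ht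
      exact mNm ⟨k, hk⟩ t (by rw [Finset.mem_union]; exact Or.inr ht)
  refine ⟨Nm, E1 ∪ ⋃ n ∈ Nm, (cell kd sz x n : Set ℕ), nd_of_kp hF ?_ hRn ?_ ?_ ?_ href, href, hgap⟩
  · exact hE1f.union (Nm.finite_toSet.biUnion fun n _ => (cell kd sz x n).finite_toSet)
  · exact fun y hy => Or.inl (Or.inl hy)
  · intro n hn y hy
    exact Or.inr (mem_iUnion₂.2 ⟨n, hn, hy⟩)
  · intro i y hy h
    by_cases hi : i ∈ Rn
    · exact hRn hi
    rcases h with h | h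
    · apply hNm0
      rw [Finset.mem_union, Finset.mem_union]
      left
      right
      rw [Set.Finite.mem_toFinset]
      exact ⟨hi, y, hy, h⟩
    · obtain ⟨n, hn, hyn⟩ := mem_iUnion₂.1 h
      rw [cell_eq hF hy hyn (Or.inr (Or.inl hi))]
      exact hn

end Pool.H5.AC
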