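import Pool.Agent.H5.AB.Rec

/-!
# Recognition by one partial isomorphism
-/

set_option autoImplicit false

namespace Pool.H5.AC

open Set Ordinal Pool.H62.VT Pool.H5.AB

variable {a : ℕ → ℕ} {I : Type} {M : Str a} {E E' : Set ℕ} {m c r : ℕ} [LinearOrder I]
  {kd : I → ℕ} {sz : ℕ → ℕ} {x : I → ℕ → ℕ} {Rn : Finset I} {k a0 b0 m0 : ℕ}

/-- RECOGNITION, by a partial isomorphism which contains enough cells far below and above. -/
theorem recog0 (hF : FF M Rn E E' m c kd sz x) (hk : k < c) {F : Set ℕ} {T T' Z : Finset (Lk kd k)}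
    (hK : KP M kd sz x k r a0 b0 m0 F T T' Z) {P : Pos} (hB : PI M M P)
    (hFP : idOn F ⊆ P) (Nm : Finset (Lk kd k))
    (hT : T ⊆ Nm) (hT' : T' ⊆ Nm) (hZ : Z ⊆ Nm)
    (hNm : ∀ n ∈ Nm, mvL x n.1 n.1 (1 : Equiv.Perm (Fin (sz k))) ⊆ P) (U : Finset (Lk kd k))
    (φ : Lk kd k → Lk kd k) (γ : Lk kd k → Equiv.Perm (Fin (sz k)))
    (hU : ∀ u ∈ U, mvL x u.1 (φ u).1 (γ u) ⊆ P) (hUN : ∀ u ∈ U, u ∉ Nm)
    (W V : Finset (Lk kd k))
    (cW : fN a0 b0 (lN a0 b0 r (Nat.card (Equiv.Perm (Fin (sz k))))) ≤ W.card)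
    (hW : ∀ w ∈ W, ∀ y ∈ U ∪ Nm, y ∉ T → y < w)
    (cV : fN a0 b0 (lN a0 b0 r (Nat.card (Equiv.Perm (Fin (sz k))))) ≤ V.card)
    (hV : ∀ w ∈ V, ∀ y ∈ U ∪ Nm ∪ W, y ∉ T' → w < y)
    (hMt : ∀ y ∈ W ∪ V, ∃ (v : Lk kd k) (g : Equiv.Perm (Fin (sz k))), mvL x y.1 v.1 g ⊆ P) :
    (∀ u ∈ U, ∀ v ∈ U, u < v → φ u < φ v) ∧ (∀ u ∈ U, ∀ n ∈ Nm, (n < u ↔ n < φ u)) ∧
      (∀ u ∈ U, φ u ∉ Nm) ∧ ∀ u ∈ U, GdL M kd sz x k (γ u) := by
  classical
  have hinf : Infinite (Lk kd k) := (hF.inf k hk).to_subtype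
  have hφN : ∀ u ∈ U, φ u ∉ Nm := by
    intro u hu hn
    have := mvL_inj hF hB (hU u hu) (hNm _ hn)
    rw [← this] at hn
    exact hUN u hu hn
  obtain ⟨z0, hz0⟩ : ∃ z0, z0 ∈ Z := by
    have : 0 < Z.card := by
      have := hK.cz2
      omega
    exact Finset.card_pos.1 this
  have hWT' : ∀ w ∈ W, w ∉ T' := by
    intro w hw hwT
    have h1 := hW w hw z0 (Finset.mem_union_right _ (hZ hz0)) (hK.zT z0 hz0).1
    exact (hK.zT z0 hz0).2 (hK.bot w hwT z0 h1)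
  set X0 : Finset (Lk kd k) := (U ∪ Nm).filter (fun y => y ∉ T ∧ y ∉ T') with hX0
  have mX0 : ∀ y, y ∈ X0 ↔ (y ∈ U ∨ y ∈ Nm) ∧ y ∉ T ∧ y ∉ T' := by
    intro y
    rw [hX0, Finset.mem_filter, Finset.mem_union]
  set X : Finset (Lk kd k) := X0 ∪ W ∪ V with hX
  have mX : ∀ y, y ∈ X ↔ (y ∈ X0 ∨ y ∈ W) ∨ y ∈ V := by
    intro y
    rw [hX, Finset.mem_union, Finset.mem_union]
  have hVW : ∀ v ∈ V, ∀ w ∈ W, v < w := fun v hv w hw =>
    hV v hv w (Finset.mem_union_right _ hw) (hWT' w hw)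
  have hX0W : ∀ y ∈ X0, ∀ w ∈ W, y < w := fun y hy w hw =>
    hW w hw y (Finset.mem_union.2 ((mX0 y).1 hy).1) ((mX0 y).1 hy).2.1
  have hVX0 : ∀ v ∈ V, ∀ y ∈ X0, v < y := fun v hv y hy =>
    hV v hv y (Finset.mem_union_left _ (Finset.mem_union.2 ((mX0 y).1 hy).1)) ((mX0 y).1 hy).2.2
  have hex : ∀ y ∈ X, ∃ (v : Lk kd k) (g : Equiv.Perm (Fin (sz k))), mvL x y.1 v.1 g ⊆ P := by
    intro y hy
    rcases (mX y).1 hy with (hy | hy) | hy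
    · rcases ((mX0 y).1 hy).1 with h | h
      · exact ⟨φ y, γ y, hU y h⟩
      · exact ⟨y, 1, hNm y h⟩
    · exact hMt y (Finset.mem_union_left _ hy)
    · exact hMt y (Finset.mem_union_right _ hy)
  have hex' : ∀ y : Lk kd k, ∃ (v : Lk kd k) (g : Equiv.Perm (Fin (sz k))),
      y ∈ X → mvL x y.1 v.1 g ⊆ P := by
    intro y
    by_cases hy : y ∈ X
    · obtain ⟨v, g, h⟩ := hex y hy
      exact ⟨v, g, fun _ => h⟩
    · exact ⟨y, 1, fun h => absurd h hy⟩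
  choose Φ Γ hΦ using hex'
  have hΦU : ∀ u ∈ U, u ∈ X → Φ u = φ u ∧ Γ u = γ u := fun u hu huX =>
    mvL_unique hF hB (hΦ u huX) ((hU u hu))
  have hΦN : ∀ n ∈ Nm, n ∈ X → Φ n = n ∧ Γ n = 1 := fun n hn hnX =>
    mvL_unique hF hB (hΦ n hnX) ((hNm n hn))
  have hinj : InjOn Φ X := by
    intro y hy y' hy' he
    have h1 := hΦ y hy
    have h2 := hΦ y' hy'
    rw [← he] at h2
    exact mvL_inj hF hB h1 h2
  have hls : LS (QL M F kd sz x k) := ls_kind hF k hK.sub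
  have hQ : QL M F kd sz x k {q | q.1 ∈ X ∧ q.2.1 = Φ q.1 ∧ q.2.2 = Γ q.1} := by
    refine hB.mono ?_
    rintro q (hq | ⟨g, ⟨hg1, hg2, hg3⟩, hq⟩)
    · exact hFP hq
    · rw [hg2, hg3] at hq
      exact hΦ _ hg1 hq
  have hZX0 : ∀ z ∈ Z, z ∈ X0 := fun z hz =>
    (mX0 z).2 ⟨Or.inr (hZ hz), (hK.zT z hz).1, (hK.zT z hz).2⟩
  have hX0X : ∀ y ∈ X0, y ∈ X := fun y hy => (mX y).2 (Or.inl (Or.inl hy))
  have hWX : ∀ y ∈ W, y ∈ X := fun y hy => (mX y).2 (Or.inl (Or.inr hy))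
  have hVX : ∀ y ∈ V, y ∈ X := fun y hy => (mX y).2 (Or.inr hy)
  have mZ : StrictMonoOn Φ Z := by
    intro z hz z' hz' hlt
    rw [(hΦN z (hZ hz) (hX0X z (hZX0 z hz))).1, (hΦN z' (hZ hz') (hX0X z' (hZX0 z' hz'))).1]
    exact hlt
  have lZ : ∀ z ∈ Z, Γ z = 1 := fun z hz => (hΦN z (hZ hz) (hX0X z (hZX0 z hz))).2
  have hup : ∀ w ∈ W, ∀ y ∈ X, y ∉ W → y < w := by
    intro w hw y hy hyW
    rcases (mX y).1 hy with (h | h) | h
    · exact hX0W y h w hw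
    · exact absurd h hyW
    · exact hVW y h w hw
  have hdn : ∀ w ∈ V, ∀ y ∈ X, y ∉ V → w < y := by
    intro w hw y hy hyV
    rcases (mX y).1 hy with (h | h) | h
    · exact hVX0 w hw y h
    · exact hVW w hw y h
    · exact absurd h hyV
  have hX0nW : ∀ y ∈ X0, y ∉ W := fun y hy hyW => lt_irrefl _ (hX0W y hy y hyW)
  have hX0nV : ∀ y ∈ X0, y ∉ V := fun y hy hyV => lt_irrefl _ (hVX0 y hyV y hy)
  have hlab := fun (u : Lk kd k) (hu : u ∈ X0) => label_thm hls hK.vs hK.rot r X Φ Γ hinj hQ Z V W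
    (fun z hz => hX0X z (hZX0 z hz)) hVX hWX hK.cz hK.cz2 cV cW mZ lZ hup hdn
    (fun z hz => ⟨hX0nV z (hZX0 z hz), hX0nW z (hZX0 z hz)⟩) u (hX0X u hu) (hX0nV u hu)
    (hX0nW u hu)
  have hQi : Qi (QL M F kd sz x k) {q | q.1 ∈ X ∧ q.2 = Φ q.1} := by
    refine ⟨_, hQ, ?_⟩
    rintro q ⟨hq1, hq2⟩
    exact ⟨Γ q.1, hq1, hq2, rfl⟩
  have hl : 2 * a0 + 2 * b0 + 3 ≤ lN a0 b0 r (Nat.card (Equiv.Perm (Fin (sz k)))) := by
    unfold lN
    omega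
  have hord : ∀ u ∈ X0, ∀ v ∈ X0, u < v → Φ u < Φ v := fun u hu v hv huv =>
    frame_thm (gs_qi hls) hK.vs hK.rot X Φ hinj hQi Z V W
      (fun z hz => hX0X z (hZX0 z hz)) hVX hWX hK.cz hl cV cW mZ hup hdn
      (fun z hz => ⟨hX0nV z (hZX0 z hz), hX0nW z (hZX0 z hz)⟩) u (hX0X u hu) v (hX0X v hv)
      (hX0nV u hu) (hX0nW u hu) (hX0nV v hv) (hX0nW v hv) huv
  have hUX0 : ∀ u ∈ U, u ∈ X0 := fun u hu => (mX0 u).2
    ⟨Or.inl hu, fun h => hUN u hu (hT h), fun h => hUN u hu (hT' h)⟩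
  refine ⟨?_, ?_, hφN, ?_⟩
  · intro u hu v hv huv
    have h1 := hord u (hUX0 u hu) v (hUX0 v hv) huv
    rwa [(hΦU u hu (hX0X u (hUX0 u hu))).1, (hΦU v hv (hX0X v (hUX0 v hv))).1] at h1
  · intro u hu n hn
    have hun : u ≠ n := fun h => hUN u hu (h ▸ hn)
    have hφn : φ u ≠ n := fun h => hφN u hu (h ▸ hn)
    by_cases h1 : n ∈ T
    · have e1 : ¬ n < u := fun h => hUN u hu (hT (hK.top n h1 u h))
      have e2 : ¬ n < φ u := fun h => hφN u hu (hT (hK.top n h1 _ h))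
      exact ⟨fun h => absurd h e1, fun h => absurd h e2⟩
    by_cases h2 : n ∈ T'
    · have e1 : n < u := by
        rcases lt_trichotomy n u with h | h | h
        · exact h
        · exact absurd h.symm hun
        · exact absurd (hT' (hK.bot n h2 u h)) (hUN u hu)
      have e2 : n < φ u := by
        rcases lt_trichotomy n (φ u) with h | h | h
        · exact h
        · exact absurd h.symm hφn
        · exact absurd (hT' (hK.bot n h2 _ h)) (hφN u hu)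
      exact ⟨fun _ => e2, fun _ => e1⟩
    have hnX0 : n ∈ X0 := (mX0 n).2 ⟨Or.inr hn, h1, h2⟩
    have e1 := hΦU u hu (hX0X u (hUX0 u hu))
    have e2 := hΦN n hn (hX0X n hnX0)
    constructor
    · intro h
      have h3 := hord n hnX0 u (hUX0 u hu) h
      rwa [e1.1, e2.1] at h3
    · intro h
      rcases lt_trichotomy n u with h4 | h4 | h4
      · exact h4
      · exact absurd h4.symm hun
      · have h3 := hord u (hUX0 u hu) n hnX0 h4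
        rw [e1.1, e2.1] at h3
        exact absurd h h3.not_gt
  · intro u hu
    have h1 := hlab u (hUX0 u hu)
    rw [(hΦU u hu (hX0X u (hUX0 u hu))).2] at h1
    exact hK.lab _ h1

end Pool.H5.AC
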