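import Pool.Agent.H5.AC.Kq
import Pool.Agent.H5.AC.Rec0

/-!
# Reference cells: recognition and moving
-/

set_option autoImplicit false

namespace Pool.H5.AC

open Set Ordinal Pool.H62.VT Pool.H5.AB

variable {a : ℕ → ℕ} {I : Type} {M : Str a} {E E' EE : Set ℕ} {m c r : ℕ} [LinearOrder I]
  {kd : I → ℕ} {sz : ℕ → ℕ} {x : I → ℕ → ℕ} {Rn Nm : Finset I} {k : ℕ}

theorem bf_zero {P : Pos} (h : PI M M P) : BF M univ M univ 0 P := by
  rw [BF]
  exact ⟨h, fun β hβ => absurd hβ (not_lt_of_ge zero_le)⟩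

/-- a matched cell is matched with a cell -/
theorem cell_reco0 (hF : FF M Rn E E' 0 c kd sz x) {P : Pos} (hB : PI M M P)
    (hE : idOn E' ⊆ P) (u : Lk kd k) (hu : ∀ d < sz k, ∃ y, (x u.1 d, y) ∈ P) :
    ∃ (v : Lk kd k) (g : Equiv.Perm (Fin (sz k))), mvL x u.1 v.1 g ⊆ P := by
  refine cell_reco hF ?_ hE u hu
  rw [Nat.cast_zero]
  exact bf_zero hB

theorem gap_of {u v : Lk kd k} (h : ∀ n ∈ Nm, kd n = k → (n < u.1 ↔ n < v.1)) :
    gap kd Nm v.1 = gap kd Nm u.1 := by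
  unfold gap
  congr 1
  ext n
  rw [Finset.mem_filter, Finset.mem_filter, u.2, v.2]
  constructor
  · rintro ⟨h5, h6, h7⟩
    exact ⟨h5, h6, (h n h5 h6).2 h7⟩
  · rintro ⟨h5, h6, h7⟩
    exact ⟨h5, h6, (h n h5 h6).1 h7⟩

theorem exists_refs (hF : FF M Rn E E' 0 c kd sz x) (hN : NE M Rn E' c kd sz x r Nm EE)
    (hk : k < c) {u0 v0 : Lk kd k} (hu : u0.1 ∉ Nm) (hv : v0.1 ∉ Nm) (huv : u0 < v0) :
    ∃ Y : Finset (Lk kd k), (∀ y ∈ Y, y.1 ∉ Nm) ∧ u0 ∉ Y ∧ v0 ∉ Y ∧
      (∀ (P : Pos) (φ : Lk kd k → Lk kd k) (γ : Lk kd k → Equiv.Perm (Fin (sz k))), PI M M P →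
        idOn EE ⊆ P → (∀ y ∈ insert u0 (insert v0 Y), mvL x y.1 (φ y).1 (γ y) ⊆ P) →
        φ u0 < φ v0 ∧ ((φ u0).1 ∉ Nm ∧ gap kd Nm (φ u0).1 = gap kd Nm u0.1 ∧
          GdL M kd sz x k (γ u0)) ∧ (φ v0).1 ∉ Nm ∧ gap kd Nm (φ v0).1 = gap kd Nm v0.1 ∧
            GdL M kd sz x k (γ v0)) ∧
      ∀ i i' : Lk kd k, i < i' → i.1 ∉ Nm → i'.1 ∉ Nm → gap kd Nm i.1 = gap kd Nm u0.1 →
        gap kd Nm i'.1 = gap kd Nm v0.1 → ∃ φ : Lk kd k → Lk kd k, φ u0 = i ∧ φ v0 = i' ∧
          StrictMonoOn φ (insert u0 (insert v0 Y) : Finset (Lk kd k)) ∧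
          ∀ y ∈ insert u0 (insert v0 Y), (φ y).1 ∉ Nm ∧ gap kd Nm (φ y).1 = gap kd Nm y.1 := by
  classical
  obtain ⟨a0, b0, m0, F, T, T', Z, hK, hFE, hT, hT', hZ⟩ := hN.ref k hk
  set NmK : Finset (Lk kd k) := Nm.subtype (fun i => kd i = k) with hNmK
  have mN : ∀ n : Lk kd k, n ∈ NmK ↔ n.1 ∈ Nm := fun n => by
    rw [hNmK, Finset.mem_subtype]
  have hTN : T ⊆ NmK := fun t ht => (mN t).2 (hT t ht)
  have hTN' : T' ⊆ NmK := fun t ht => (mN t).2 (hT' t ht)
  have huT : u0 ∉ T := fun h => hu (hT _ h)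
  have huT' : u0 ∉ T' := fun h => hu (hT' _ h)
  have hvT : v0 ∉ T := fun h => hv (hT _ h)
  have hvT' : v0 ∉ T' := fun h => hv (hT' _ h)
  obtain ⟨W, W', cW, hWW, hWN, hWT, hW, hWe⟩ := up_ref hK.up hK.kp.top hTN (insert u0 (insert v0 NmK))
  obtain ⟨V, V', cV, hVV, hVN, hVT, hV, hVe⟩ := dn_ref hK.dn hK.kp.bot hTN'
    (insert u0 (insert v0 NmK) ∪ W)
  have iN : ∀ n : Lk kd k, n.1 ∈ Nm → n ∈ insert u0 (insert v0 NmK) := fun n hn =>
    Finset.mem_insert_of_mem (Finset.mem_insert_of_mem ((mN n).2 hn))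
  have iu : u0 ∈ insert u0 (insert v0 NmK) := Finset.mem_insert_self _ _
  have iv : v0 ∈ insert u0 (insert v0 NmK) := Finset.mem_insert_of_mem (Finset.mem_insert_self _ _)
  have hWT' : ∀ w ∈ W, w ∉ T' := fun w hw h => huT' (hK.kp.bot w h u0 (hW w hw u0 iu huT))
  -- positions
  have uW : ∀ w ∈ W', u0 < w := fun w hw => hW w (hWW hw) u0 iu huT
  have vW : ∀ w ∈ W', v0 < w := fun w hw => hW w (hWW hw) v0 iv hvT
  have uV : ∀ w ∈ V', w < u0 := fun w hw => hV w (hVV hw) u0 (Finset.mem_union_left _ iu) huT'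
  have vV : ∀ w ∈ V', w < v0 := fun w hw => hV w (hVV hw) v0 (Finset.mem_union_left _ iv) hvT'
  have VW : ∀ v ∈ V', ∀ w ∈ W', v < w := fun v hv' w hw =>
    hV v (hVV hv') w (Finset.mem_union_right _ (hWW hw)) (hWT' w (hWW hw))
  have nW : ∀ w ∈ W', w.1 ∉ Nm := fun w hw h =>
    lt_irrefl w (hW w (hWW hw) w (iN w h) (hWT w hw))
  have nV : ∀ w ∈ V', w.1 ∉ Nm := fun w hw h =>
    lt_irrefl w (hV w (hVV hw) w (Finset.mem_union_left _ (iN w h)) (hVT w hw))
  have mY : ∀ y, y ∈ insert u0 (insert v0 (W' ∪ V')) ↔ y = u0 ∨ y = v0 ∨ y ∈ W' ∨ y ∈ V' := by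
    intro y
    rw [Finset.mem_insert, Finset.mem_insert, Finset.mem_union]
  refine ⟨W' ∪ V', ?_, ?_, ?_, ?_, ?_⟩
  · intro y hy
    rcases Finset.mem_union.1 hy with h | h
    · exact nW y h
    · exact nV y h
  · intro hy
    rcases Finset.mem_union.1 hy with h | h
    · exact lt_irrefl _ (uW _ h)
    · exact lt_irrefl _ (uV _ h)
  · intro hy
    rcases Finset.mem_union.1 hy with h | h
    · exact lt_irrefl _ (vW _ h)
    · exact lt_irrefl _ (vV _ h)
  · -- recognition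
    intro P φ γ hP hE hm
    have hNn : ∀ n : Lk kd k, n.1 ∈ Nm → mvL x n.1 n.1 (1 : Equiv.Perm (Fin (sz k))) ⊆ P := by
      rintro n hn _ ⟨d, rfl⟩
      refine hE ⟨hN.nd.named _ hn _ ?_, rfl⟩
      refine mem_cell.2 ⟨d, ?_, rfl⟩
      rw [n.2]
      exact d.2
    obtain ⟨e1, e2, e3, e4⟩ := recog0 hF hk hK.kp hP (fun q hq => hE ⟨hFE hq.1, hq.2⟩) NmK hTN hTN'
      (fun z hz => (mN z).2 (hZ z hz)) (fun n hn => hNn n ((mN n).1 hn)) {u0, v0} φ γ
      (fun u hu' => hm u ((mY u).2 (by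
        rw [Finset.mem_insert, Finset.mem_singleton] at hu'
        rcases hu' with h | h
        · exact Or.inl h
        · exact Or.inr (Or.inl h))))
      (fun u hu' h => by
        rw [Finset.mem_insert, Finset.mem_singleton] at hu'
        rcases hu' with rfl | rfl
        · exact hu ((mN _).1 h)
        · exact hv ((mN _).1 h)) W V cW
      (fun w hw y hy => hW w hw y (by
        rw [Finset.mem_union, Finset.mem_insert, Finset.mem_singleton] at hy
        rw [Finset.mem_insert, Finset.mem_insert]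
        tauto)) cV
      (fun w hw y hy => hV w hw y (by
        rw [Finset.mem_union, Finset.mem_union, Finset.mem_insert, Finset.mem_singleton] at hy
        rw [Finset.mem_union, Finset.mem_insert, Finset.mem_insert]
        tauto))
      (fun y hy => by
        by_cases hyN : y.1 ∈ Nm
        · exact ⟨y, 1, hNn y hyN⟩
        · refine ⟨φ y, γ y, hm y ((mY y).2 ?_)⟩
          rcases Finset.mem_union.1 hy with h | h
          · refine Or.inr (Or.inr (Or.inl ?_))
            by_contra hcon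
            exact hyN ((mN y).1 (hWN y h hcon))
          · refine Or.inr (Or.inr (Or.inr ?_))
            by_contra hcon
            exact hyN ((mN y).1 (hVN y h hcon)))
    have mu : u0 ∈ ({u0, v0} : Finset (Lk kd k)) := Finset.mem_insert_self _ _
    have mv : v0 ∈ ({u0, v0} : Finset (Lk kd k)) :=
      Finset.mem_insert_of_mem (Finset.mem_singleton_self _)
    have hg : ∀ u ∈ ({u0, v0} : Finset (Lk kd k)), gap kd Nm (φ u).1 = gap kd Nm u.1 :=
      fun u hu' => gap_of fun n hn hkn => e2 u hu' ⟨n, hkn⟩ ((mN ⟨n, hkn⟩).2 hn)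
    exact ⟨e1 u0 mu v0 mv huv, ⟨fun h => e3 u0 mu ((mN _).2 h), hg u0 mu, e4 u0 mu⟩,
      fun h => e3 v0 mv ((mN _).2 h), hg v0 mv, e4 v0 mv⟩
  · -- moving
    intro i i' hii hi hi' hgi hgi'
    have hiT : i ∉ T := fun h => hi (hT _ h)
    have hiT' : i ∉ T' := fun h => hi (hT' _ h)
    have hjT : i' ∉ T := fun h => hi' (hT _ h)
    have hjT' : i' ∉ T' := fun h => hi' (hT' _ h)
    obtain ⟨eW, heW, hW1⟩ := hWe (insert i (insert i' NmK))
    obtain ⟨eV, heV, hV1⟩ := hVe (insert i (insert i' NmK) ∪ W'.image eW)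
    have jN : ∀ n : Lk kd k, n.1 ∈ Nm → n ∈ insert i (insert i' NmK) := fun n hn =>
      Finset.mem_insert_of_mem (Finset.mem_insert_of_mem ((mN n).2 hn))
    have ji : i ∈ insert i (insert i' NmK) := Finset.mem_insert_self _ _
    have jj : i' ∈ insert i (insert i' NmK) := Finset.mem_insert_of_mem (Finset.mem_insert_self _ _)
    have iW : ∀ w ∈ W', i < eW w := fun w hw => (hW1 w hw).2 i ji hiT
    have jW : ∀ w ∈ W', i' < eW w := fun w hw => (hW1 w hw).2 i' jj hjT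
    have iV : ∀ w ∈ V', eV w < i := fun w hw => (hV1 w hw).2 i (Finset.mem_union_left _ ji) hiT'
    have jV : ∀ w ∈ V', eV w < i' := fun w hw =>
      (hV1 w hw).2 i' (Finset.mem_union_left _ jj) hjT'
    have VW1 : ∀ v ∈ V', ∀ w ∈ W', eV v < eW w := fun v hv' w hw =>
      (hV1 v hv').2 (eW w) (Finset.mem_union_right _ (Finset.mem_image_of_mem _ hw))
        fun h => hiT' (hK.kp.bot _ h i (iW w hw))
    have huv' : u0 ≠ v0 := huv.ne
    -- the map
    obtain ⟨φ, hφW, hφV, hφu, hφv⟩ : ∃ φ : Lk kd k → Lk kd k, (∀ w ∈ W', φ w = eW w) ∧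
        (∀ w ∈ V', φ w = eV w) ∧ φ u0 = i ∧ φ v0 = i' := by
      refine ⟨fun y => if y ∈ W' then eW y else if y ∈ V' then eV y else if y = u0 then i else i',
        ?_, ?_, ?_, ?_⟩
      · intro w hw
        beta_reduce
        rw [if_pos hw]
      · intro w hw
        beta_reduce
        rw [if_neg fun h => lt_irrefl _ (VW w hw w h), if_pos hw]
      · beta_reduce
        rw [if_neg fun h => lt_irrefl _ (uW _ h), if_neg fun h => lt_irrefl _ (uV _ h), if_pos rfl]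
      · beta_reduce
        rw [if_neg fun h => lt_irrefl _ (vW _ h), if_neg fun h => lt_irrefl _ (vV _ h),
          if_neg huv'.symm]
    refine ⟨φ, hφu, hφv, ?_, ?_⟩
    · intro y hy y' hy' hlt
      rcases (mY y).1 (Finset.mem_coe.1 hy) with rfl | rfl | h | h
      · rcases (mY y').1 (Finset.mem_coe.1 hy') with rfl | rfl | h' | h'
        · exact absurd hlt (lt_irrefl _)
        · rw [hφu, hφv]
          exact hii
        · rw [hφu, hφW _ h']
          exact iW _ h'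
        · exact absurd hlt (uV _ h').not_gt
      · rcases (mY y').1 (Finset.mem_coe.1 hy') with rfl | rfl | h' | h'
        · exact absurd hlt huv.not_gt
        · exact absurd hlt (lt_irrefl _)
        · rw [hφv, hφW _ h']
          exact jW _ h'
        · exact absurd hlt (vV _ h').not_gt
      · rcases (mY y').1 (Finset.mem_coe.1 hy') with rfl | rfl | h' | h'
        · exact absurd hlt (uW _ h).not_gt
        · exact absurd hlt (vW _ h).not_gt
        · rw [hφW _ h, hφW _ h']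
          exact heW h h' hlt
        · exact absurd hlt (VW _ h' _ h).not_gt
      · rcases (mY y').1 (Finset.mem_coe.1 hy') with rfl | rfl | h' | h'
        · rw [hφu, hφV _ h]
          exact iV _ h
        · rw [hφv, hφV _ h]
          exact jV _ h
        · rw [hφV _ h, hφW _ h']
          exact VW1 _ h _ h'
        · rw [hφV _ h, hφV _ h']
          exact heV h h' hlt
    · intro y hy
      rcases (mY y).1 hy with rfl | rfl | h | h
      · rw [hφu]
        exact ⟨hi, hgi⟩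
      · rw [hφv]
        exact ⟨hi', hgi'⟩
      · rw [hφW _ h]
        refine ⟨fun h1 => lt_irrefl _ ((hW1 y h).2 _ (jN _ h1) (hW1 y h).1), gap_of ?_⟩
        intro n hn hkn
        by_cases hnT : (⟨n, hkn⟩ : Lk kd k) ∈ T
        · have e1 : ¬ (⟨n, hkn⟩ : Lk kd k) < y := fun h1 => hWT y h (hK.kp.top _ hnT y h1)
          have e2 : ¬ (⟨n, hkn⟩ : Lk kd k) < eW y := fun h1 =>
            (hW1 y h).1 (hK.kp.top _ hnT _ h1)
          exact ⟨fun h1 => absurd h1 e1, fun h1 => absurd h1 e2⟩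
        · have e1 : (⟨n, hkn⟩ : Lk kd k) < y := hW y (hWW h) _ (iN ⟨n, hkn⟩ hn) hnT
          have e2 : (⟨n, hkn⟩ : Lk kd k) < eW y := (hW1 y h).2 _ (jN ⟨n, hkn⟩ hn) hnT
          exact ⟨fun _ => e2, fun _ => e1⟩
      · rw [hφV _ h]
        refine ⟨fun h1 => lt_irrefl _ ((hV1 y h).2 _ (Finset.mem_union_left _ (jN _ h1))
          (hV1 y h).1), gap_of ?_⟩
        intro n hn hkn
        by_cases hnT : (⟨n, hkn⟩ : Lk kd k) ∈ T'
        · have key : ∀ z : Lk kd k, z ∉ T' → (⟨n, hkn⟩ : Lk kd k) < z := by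
            intro z hz
            rcases lt_trichotomy (⟨n, hkn⟩ : Lk kd k) z with h1 | h1 | h1
            · exact h1
            · exact absurd (h1 ▸ hnT) hz
            · exact absurd (hK.kp.bot _ hnT z h1) hz
          exact ⟨fun _ => key _ (hV1 y h).1, fun _ => key _ (hVT y h)⟩
        · have e1 : y < (⟨n, hkn⟩ : Lk kd k) :=
            hV y (hVV h) _ (Finset.mem_union_left _ (iN ⟨n, hkn⟩ hn)) hnT
          have e2 : eV y < (⟨n, hkn⟩ : Lk kd k) :=
            (hV1 y h).2 _ (Finset.mem_union_left _ (jN ⟨n, hkn⟩ hn)) hnT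
          exact ⟨fun h1 => absurd h1 (e1.not_gt), fun h1 => absurd h1 (e2.not_gt)⟩

end Pool.H5.AC
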