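import Pool.Agent.H5.AC.Cf
import Pool.Agent.H5.AB.Fa4

/-!
# Uniform recognition: structures which are not wild
-/

set_option autoImplicit false

namespace Pool.H5.AC

open Set Ordinal Pool.H62.VT Pool.H5.AB Pool.H5.AA Pool.H22.VN Pool.H22.CO

variable {a : ℕ → ℕ} {r : ℕ}

/-- A structure of bounded arity which is not wild is composed of chains of cells, each family empty
or infinite, whose admissible enumerations and order are uniformly recognised from finitely many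
reference points, and of a cellular rest. -/
theorem ur (har : ∀ n, a n ≤ r) (hr : 2 ≤ r) (M : Pool.H62.VT.Str a)
    (hW : ¬ Pool.H22.VC.Wild (cod r M) univ) :
    ∃ (n : ℕ) (E : Set ℕ) (C : Fin n → Set (Finset ℕ))
      (lt : Fin n → Finset ℕ → Finset ℕ → Prop) (B : Fin n → Pos → Prop), ST M E C lt B ∧
      (∃ D, D0 E C ⊆ D ∧ (D \ D0 E C).Finite ∧ HCl M D) ∧
      ∀ j, C j = ∅ ∨ ((C j).Infinite ∧ ∃ (s l : ℕ) (u v : Fin s → ℕ) (w : Fin l → ℕ),
        Function.Injective u ∧ Finset.univ.image u ∈ C j ∧ ∀ q q' : Fin s → ℕ,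
          CfR M E u v w q q' ↔ ∃ S ∈ C j, ∃ S' ∈ C j, lt j S S' ∧
            MtS (mt u q) (Finset.univ.image u) S ∧ B j (mt u q) ∧
            MtS (mt u q') (Finset.univ.image u) S' ∧ B j (mt u q')) := by
  classical
  obtain ⟨I, _, Rn, E, E', c, kd, sz, x, hF, hH⟩ := hasFF0 har hr M hW
  obtain ⟨I', _, Rn', E1, E1', kd', x', hF', hrot, hDr⟩ := ff_norm _ I Rn E E' kd x hF rfl
  obtain ⟨Nm, EE, hN⟩ := exists_ne har hr hF' (fun k hk => hsw_of hF' hk) hrot
  have hST := st_of_nd hF' hN.nd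
  refine ⟨_, EE, _, _, _, hST, ?_, ?_⟩
  · refine ⟨Dr E kd sz x, ?_, ?_, hH⟩
    · intro y hy
      rw [d0_iff hF' hN.nd] at hy
      rw [← hDr]
      refine ⟨fun h => hy.1 (hN.nd.sub (hF'.sub h)), fun i d hd h => hy.2 i (mem_cell.2
        ⟨d, hd, h.symm⟩)⟩
    · refine hN.nd.fin.subset ?_
      rintro y ⟨h1, h2⟩
      rw [← hDr] at h1
      rw [d0_iff hF' hN.nd] at h2
      by_contra hcon
      apply h2
      refine ⟨hcon, fun i hi => ?_⟩
      obtain ⟨d, hd, h⟩ := mem_cell.1 hi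
      exact h1.2 i d hd h.symm
  · intro j
    by_cases hne : (CI kd' sz x' Nm (kk j) (gg j)).Nonempty
    · obtain ⟨h1, l, u, v, w, h2, h3, h4⟩ := cf_fam hF' hN (kk_lt j) hne
      exact Or.inr ⟨h1, sz (kk j), l, u, v, w, h2, h3, h4⟩
    · exact Or.inl (not_nonempty_iff_eq_empty.1 hne)

end Pool.H5.AC
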