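import Pool.Agent.H5.AC.Ur
import Pool.Agent.H22.CO.Grp

/-!
# Uniform recognition, with a cellular rest, inverses of admissible matchings
-/

set_option autoImplicit false

namespace Pool.H5.AC

open Set Ordinal Pool.H62.VT Pool.H5.AB Pool.H5.AA Pool.H22.VN Pool.H22.CO

variable {a : ℕ → ℕ} {r : ℕ}

section more

variable {I : Type} {M : Str a} {E E' EE X : Set ℕ} {m c : ℕ} [LinearOrder I]
  {kd : I → ℕ} {sz : ℕ → ℕ} {x : I → ℕ → ℕ} {Rn Nm : Finset I} {k : ℕ}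

/-- naming finitely many more points outside the cells -/
theorem ne_more (hN : NE M Rn E' c kd sz x r Nm EE) (hX : X.Finite)
    (hXc : ∀ i, ∀ y ∈ cell kd sz x i, y ∉ X) : NE M Rn E' c kd sz x r Nm (EE ∪ X) := by
  refine ⟨⟨hN.nd.fin.union hX, hN.nd.ren, hN.nd.sub.trans subset_union_left,
    fun n hn y hy => Or.inl (hN.nd.named n hn y hy), ?_, ?_⟩, ?_, hN.gapinf⟩
  · intro i y hy h
    rcases h with h | h
    · exact hN.nd.meet i y hy h
    · exact absurd h (hXc i y hy)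
  · intro k hk P hB hE
    exact hN.nd.recg k hk P hB fun q hq => hE ⟨Or.inl hq.1, hq.2⟩
  · intro k hk
    obtain ⟨a0, b0, m0, F, T, T', Z, h1, h2, h3⟩ := hN.ref k hk
    exact ⟨a0, b0, m0, F, T, T', Z, h1, h2.trans subset_union_left, h3⟩

theorem gl_inv {g : Equiv.Perm (Fin (sz k))} (h : GdL M kd sz x k g) : GdL M kd sz x k g⁻¹ := by
  intro i hi
  refine (h i hi).symm.mono ?_
  rintro q (hq | ⟨d, rfl⟩)
  · obtain ⟨q1, q2⟩ := q
    obtain ⟨h1, h2⟩ := hq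
    simp only at h1 h2
    subst h2
    exact Or.inl ⟨h1, rfl⟩
  · refine Or.inr ⟨g⁻¹ d, ?_⟩
    show (x i (g⁻¹ d), x i d) = (x i (g⁻¹ d), x i (g (g⁻¹ d)))
    simp

theorem bi_inv {b : Pos} (h : BI M kd sz x k b) : BI M kd sz x k (pinv b) := by
  obtain ⟨i, i', g, h1, h2, h3, rfl⟩ := h
  refine ⟨i', i, g⁻¹, h2, h1, gl_inv h3, ?_⟩
  ext ⟨q1, q2⟩
  constructor
  · rintro ⟨d, hd⟩
    rw [Prod.mk.injEq] at hd
    obtain ⟨e1, e2⟩ := hd
    simp only at e1 e2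
    refine ⟨g d, ?_⟩
    rw [e1, e2]
    simp
  · rintro ⟨d, hd⟩
    rw [Prod.mk.injEq] at hd
    obtain ⟨e1, e2⟩ := hd
    refine ⟨g⁻¹ d, ?_⟩
    show (q2, q1) = _
    rw [e1, e2]
    simp

end more

/-- Uniform recognition: the rest is cellular, admissible matchings have inverses. -/
theorem ur2 (har : ∀ n, a n ≤ r) (hr : 2 ≤ r) (M : Pool.H62.VT.Str a)
    (hW : ¬ Pool.H22.VC.Wild (cod r M) univ) :
    ∃ (n : ℕ) (E : Set ℕ) (C : Fin n → Set (Finset ℕ))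
      (lt : Fin n → Finset ℕ → Finset ℕ → Prop) (B : Fin n → Pos → Prop), ST M E C lt B ∧
      HCl M (D0 E C) ∧ (∀ j b, B j b → B j (pinv b)) ∧
      ∀ j, C j = ∅ ∨ ((C j).Infinite ∧ ∃ (s l : ℕ) (u v : Fin s → ℕ) (w : Fin l → ℕ),
        Function.Injective u ∧ Finset.univ.image u ∈ C j ∧ ∀ q q' : Fin s → ℕ,
          CfR M E u v w q q' ↔ ∃ S ∈ C j, ∃ S' ∈ C j, lt j S S' ∧
            MtS (mt u q) (Finset.univ.image u) S ∧ B j (mt u q) ∧
            MtS (mt u q') (Finset.univ.image u) S' ∧ B j (mt u q')) := by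
  classical
  obtain ⟨I, _, Rn, E, E', c, kd, sz, x, hF, hH⟩ := hasFF0 har hr M hW
  obtain ⟨I', _, Rn', E1, E1', kd', x', hF', hrot, hDr⟩ := ff_norm _ I Rn E E' kd x hF rfl
  obtain ⟨Nm, EE, hN⟩ := exists_ne har hr hF' (fun k hk => hsw_of hF' hk) hrot
  rw [← hDr] at hH
  set D1 : Set ℕ := {y | y ∉ EE ∧ ∀ i, y ∉ cell kd' sz x' i} with hD1
  have hD1s : D1 ⊆ Dr E1 kd' sz x' := by
    rintro y ⟨h1, h2⟩
    exact ⟨fun h => h1 (hN.nd.sub (hF'.sub h)), fun i d hd h => h2 i (mem_cell.2 ⟨d, hd, h.symm⟩)⟩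
  have hD1f : (Dr E1 kd' sz x' \ D1).Finite := by
    refine hN.nd.fin.subset ?_
    rintro y ⟨h1, h2⟩
    by_contra hcon
    apply h2
    refine ⟨hcon, fun i hi => ?_⟩
    obtain ⟨d, hd, h⟩ := mem_cell.1 hi
    exact h1.2 i d hd h.symm
  obtain ⟨D2, hD2, hD2f, hH2⟩ := hH.cofin hD1s hD1f
  have hN2 := ne_more hN hD2f fun i y hy h => h.1.2 i hy
  have hST := st_of_nd hF' hN2.nd
  have hD0 : D0 (EE ∪ (D1 \ D2)) (fun j : Fin (c * (Nm.card + 1)) => CI kd' sz x' Nm (kk j) (gg j)) =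
      D2 := by
    ext y
    rw [d0_iff hF' hN2.nd]
    constructor
    · rintro ⟨h1, h2⟩
      by_contra hcon
      exact h1 (Or.inr ⟨⟨fun h => h1 (Or.inl h), h2⟩, hcon⟩)
    · intro h
      have h1 := hD2 h
      refine ⟨?_, h1.2⟩
      rintro (h2 | h2)
      · exact h1.1 h2
      · exact h2.2 h
  refine ⟨_, EE ∪ (D1 \ D2), _, _, _, hST, ?_, fun j b hb => bi_inv hb, ?_⟩
  · rw [hD0]
    exact hH2
  · intro j
    by_cases hne : (CI kd' sz x' Nm (kk j) (gg j)).Nonempty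
    · obtain ⟨h1, l, u, v, w, h2, h3, h4⟩ := cf_fam hF' hN2 (kk_lt j) hne
      exact Or.inr ⟨h1, sz (kk j), l, u, v, w, h2, h3, h4⟩
    · exact Or.inl (not_nonempty_iff_eq_empty.1 hne)

end Pool.H5.AC
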